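import Pool.Agent.Helper42.PP1.Goals
import Pool.Agent.Helper76.PP.Goals3

/-!
# Project PP, the case `m = 1`: the statements of Goals3 for `SitW`
-/

set_option autoImplicit false

namespace Pool.Agent.Helper42.PP1

open NumberField Polynomial Module IsDedekindDomain
open Pool.Agent.Helper51.RP Pool.Agent.Helper42.RD Pool.Agent.Helper42.PP
open Pool.Agent.Helper51.SigLeo (IwasawaLog)
open Pool.Agent.Helper38.RS (pz)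
open Pool.Agent.Helper51.PP (RC Chs)
open Pool.Agent.Helper17.PP (Sys)
open Pool.Agent.Helper76.PP

/-- The `P`-functional `∑_j β_j h_j + ∑_{v ∈ D} y_v R_v` on `Mˣ`. -/
noncomputable def fSN {p : ℕ} [Fact p.Prime] {K M K₁ M₁ : Type} [Field K] [NumberField K] [Field M]
    [NumberField M] [Field K₁] [NumberField K₁] [Field M₁] [NumberField M₁] [Algebra K M]
    [Algebra K K₁] [Algebra K M₁] [Algebra M M₁] [Algebra K₁ M₁] {ε : K₁} {δ : M ≃ₐ[K] M}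
    {P : (ZMod p)[X]} (B : Base p K M K₁ M₁ ε δ P) {k : Type} [NormedField k]
    {L : IwasawaLog p k} {T : Set (K →+* k)} {aτ : K₁ˣ} {n : ℕ} (E : TauN n B L T aτ)
    (β : Fin n → AdjoinRoot P) (D : Finset (HeightOneSpectrum (𝓞 K)))
    (y : HeightOneSpectrum (𝓞 K) → AdjoinRoot P) (x : Mˣ) : AdjoinRoot P :=
  ∑ j, β j * E.h j x + ∑ v ∈ D, y v * B.R v x

/-- The condition for the nontriviality of the characters of the upper visible primes: a function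
`g ↦ tr(η ξ^(-i(g))) + γ n(g)⁻¹` on `Gal(M₁/K)`, `η ≠ 0`, is not zero. -/
def NTV (p : ℕ) [Fact p.Prime] {K M K₁ : Type} (M₁ : Type) [Field K] [Field M] [Field K₁] [Field M₁]
    [Algebra K M] [Algebra K K₁] [Algebra K M₁] [Algebra M M₁] [Algebra K₁ M₁] (ε : K₁)
    (δ : M ≃ₐ[K] M) (P : (ZMod p)[X]) : Prop :=
  ∀ tr : AdjoinRoot P →ₗ[ZMod p] ZMod p, tr ≠ 0 → ∀ (η : AdjoinRoot P) (γ : ZMod p), η ≠ 0 →
  ∃ (g : M₁ ≃ₐ[K] M₁) (i : ℕ) (σ : K₁ ≃ₐ[K] K₁), i < finrank K M ∧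
    (∀ y : M, g (algebraMap M M₁ y) = algebraMap M M₁ ((δ ^ i) y)) ∧
    (∀ y : K₁, g (algebraMap K₁ M₁ y) = algebraMap K₁ M₁ (σ y)) ∧
    tr (η * AdjoinRoot.root P ^ (finrank K M - i)) + γ * (nsig p ε σ)⁻¹ ≠ 0

/-- **W_LOG**: `B_LOG` for `SitW`, with the same proof. -/
def W_LOG : Prop :=
  ∀ (p : ℕ) [Fact p.Prime] (K M K₁ M₁ : Type) [Field K] [NumberField K] [Field M] [NumberField M]
    [Field K₁] [NumberField K₁] [Field M₁] [NumberField M₁] [Algebra K M] [Algebra K K₁]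
    [Algebra K M₁] [Algebra M M₁] [Algebra K₁ M₁] (ε : K₁)
    (δ : M ≃ₐ[K] M) (P : (ZMod p)[X]), SitW p K M K₁ M₁ ε δ P →
  ∀ (B : Base p K M K₁ M₁ ε δ P), ∀ v ∈ B.Vis,
  (∀ x : M₁ˣ, (B.W v).valuation M₁ ((x : M₁) - 1) < 1 → B.th v x = 0) ∧
  (∃ c : 𝓞 K, c ∉ v.asIdeal ∧ ∀ x : M₁ˣ,
    (B.W v).valuation M₁ ((x : M₁) - algebraMap K M₁ (c : K)) < 1 → B.th v x = 1) ∧
  ∀ x : M₁ˣ, (p : ℤ) ∣ ordv (B.W v) (x : M₁) →
    (B.th v x = 0 ↔ LocPow p (B.W v) (x : M₁))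

/-- **W_NRM**: `B_NRM` for `SitW`, with the same proof. -/
def W_NRM : Prop :=
  ∀ (p : ℕ) [Fact p.Prime] (K M K₁ M₁ : Type) [Field K] [NumberField K] [Field M] [NumberField M]
    [Field K₁] [NumberField K₁] [Field M₁] [NumberField M₁] [Algebra K M] [Algebra K K₁]
    [Algebra K M₁] [Algebra M M₁] [Algebra K₁ M₁] (ε : K₁)
    (δ : M ≃ₐ[K] M) (P : (ZMod p)[X]), SitW p K M K₁ M₁ ε δ P →
  ∀ B : Base p K M K₁ M₁ ε δ P,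
  (∀ F : Mˣ → AdjoinRoot P, IsP δ P F → IsP δ P (B.til F) ∧
    (∀ x ∈ (up M B.S).unit M, B.til F x = 0) ∧ ∀ x, LocS p (up M B.S) x → B.til F x = F x) ∧
  (∀ g : K₁ˣ → ZMod p, IsOm p K ε g → IsOm p K ε (B.tilw g) ∧
    (∀ x ∈ (up K₁ B.S).unit K₁, B.tilw g x = 0) ∧ ∀ x, LocS p (up K₁ B.S) x → B.tilw g x = g x) ∧
  ∀ v ∈ B.Vis, IsP δ P (B.R v) ∧ IsOm p K ε (B.G v)

/-- **W_UPV**: `B_UPV` for `SitW`, with the same proof; `NTV` is the claim in the proof of `B_UPV`. -/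
def W_UPV : Prop :=
  ∀ (p : ℕ) [Fact p.Prime] (K M K₁ M₁ : Type) [Field K] [NumberField K] [Field M] [NumberField M]
    [Field K₁] [NumberField K₁] [Field M₁] [NumberField M₁] [Algebra K M] [Algebra K K₁]
    [Algebra K M₁] [Algebra M M₁] [Algebra K₁ M₁] (ε : K₁)
    (δ : M ≃ₐ[K] M) (P : (ZMod p)[X]), SitW p K M K₁ M₁ ε δ P →
    NTV p M₁ ε δ P →
  ∀ (B : Base p K M K₁ M₁ ε δ P) (tr : AdjoinRoot P →ₗ[ZMod p] ZMod p), tr ≠ 0 →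
  ∀ v ∈ B.Vis, ∀ (η : AdjoinRoot P) (γ : ZMod p),
  Psi p (modu p M₁ B.S * v.asIdeal.map (algebraMap (𝓞 K) (𝓞 M₁))) (psU B tr v η γ) ∧
  (∀ q ∈ B.Vis, psU B tr v η γ (B.W q).asIdeal = tr (η * B.A v q) + γ * B.pi v q) ∧
  (η ≠ 0 → ∃ α : 𝓞 M₁, α - 1 ∈ modu p M₁ B.S ∧
    Ideal.span {α} ⊔ v.asIdeal.map (algebraMap (𝓞 K) (𝓞 M₁)) = ⊤ ∧
    psU B tr v η γ (Ideal.span {α}) ≠ 0)

/-- **W_BLU**: `B_BLU` for `SitW`, with the same proof. -/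
def W_BLU : Prop :=
  ∀ (p : ℕ) [Fact p.Prime] (k : Type) [NormedField k] [NormedAlgebra ℚ_[p] k]
    (K M K₁ M₁ : Type) [Field K] [NumberField K] [Field M] [NumberField M]
    [Field K₁] [NumberField K₁] [Field M₁] [NumberField M₁] [Algebra K M] [Algebra K K₁]
    [Algebra K M₁] [Algebra M M₁] [Algebra K₁ M₁] (ε : K₁)
    (δ : M ≃ₐ[K] M) (P : (ZMod p)[X]) [Fact (Irreducible P)], SitW p K M K₁ M₁ ε δ P →
    NTV p M₁ ε δ P →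
  ∀ (B : Base p K M K₁ M₁ ε δ P) (L : IwasawaLog p k) (T : Set (K →+* k)) (aτ : K₁ˣ)
    (n : ℕ) (E : TauN n B L T aτ) (tr : AdjoinRoot P →ₗ[ZMod p] ZMod p) (ψ₁ : AddChar (ZMod p) ℂ),
    tr ≠ 0 → ψ₁ ≠ 1 →
  ∃ Xd : B.LP → AdjoinRoot P → AdjoinRoot P → AdjoinRoot P → (ZMod p)ˣ → Ideal (𝓞 M₁) → ℂ,
    (∀ (y c : B.LP → AdjoinRoot P) (t : AdjoinRoot P) (e : (ZMod p)ˣ), t ≠ 0 →
      Chs (sysN B E) M₁ (modu p M₁ B.S)
        (fun q ↦ q.1.1.asIdeal.map (algebraMap (𝓞 K) (𝓞 M₁))) (finrank K M₁)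
        {q | (sysN B E).spl q ∧ q.1.2 = e} {q | (sysN B E).spl q ∧ y q ≠ 0} (fun q ↦ B.W q.1.1)
        (fun q ↦ Xd q (y q) (c q) t e)) ∧
    ∀ (y c t : AdjoinRoot P) (q q' : B.LP), (sysN B E).spl q → (sysN B E).spl q' →
      (sysN B E).bs q ≠ (sysN B E).bs q' → Xd q' y c t q.1.2 (B.W q.1.1).asIdeal =
        psK tr ψ₁ (y * (t * (sysN B E).a q' q +
          c * algebraMap (ZMod p) (AdjoinRoot P) ((sysN B E).kap q' q)))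

/-- **W_SMF**: `B_SMF` for `SitW`, with the same proof. -/
def W_SMF : Prop :=
  ∀ (p : ℕ) [Fact p.Prime] (k : Type) [NormedField k] [NormedAlgebra ℚ_[p] k]
    (K M K₁ M₁ : Type) [Field K] [NumberField K] [Field M] [NumberField M]
    [Field K₁] [NumberField K₁] [Field M₁] [NumberField M₁] [Algebra K M] [Algebra K K₁]
    [Algebra K M₁] [Algebra M M₁] [Algebra K₁ M₁] (ε : K₁)
    (δ : M ≃ₐ[K] M) (P : (ZMod p)[X]), SitW p K M K₁ M₁ ε δ P →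
  ∀ (B : Base p K M K₁ M₁ ε δ P) (L : IwasawaLog p k) (T : Set (K →+* k)) (aτ : K₁ˣ)
    (n : ℕ) (E : TauN n B L T aτ) (tr : AdjoinRoot P →ₗ[ZMod p] ZMod p), tr ≠ 0 →
  ∀ (β : Fin n → AdjoinRoot P) (D : Finset (HeightOneSpectrum (𝓞 K)))
    (y : HeightOneSpectrum (𝓞 K) → AdjoinRoot P), (∀ v ∈ D, v ∈ B.Vis ∧ y v ≠ 0) →
    (D.Nonempty ∨ β ≠ 0) → (∀ i, fSN B E β D y (B.u i) = 0) →
  Psi p (mD p M₁ B.S D) (idl (up M₁ B.S) (fun x ↦ tr (fSN B E β D y (nrm M M₁ x)))) ∧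
  (∃ I : Ideal (𝓞 M₁), I ≠ ⊥ ∧ I ⊔ mD p M₁ B.S D = ⊤ ∧
    idl (up M₁ B.S) (fun x ↦ tr (fSN B E β D y (nrm M M₁ x))) I ≠ 0 ∧
    (D.Nonempty → ∃ α : 𝓞 M₁, I = Ideal.span {α})) ∧
  (∀ q ∈ B.Vis, fSN B E β D y (nrm M M₁ (B.z q)) =
    ∑ j, β j * B.til (E.h j) (nrm M M₁ (B.z q)) + ∑ v ∈ D, y v * B.A v q) ∧
  ∀ q ∈ B.Vis, fSN B E β D y (nrm M M₁ (B.z q)) = 0 →
    ∀ W : HeightOneSpectrum (𝓞 M₁), Above W q → FreeP K W →
      idl (up M₁ B.S) (fun x ↦ tr (fSN B E β D y (nrm M M₁ x))) W.asIdeal = 0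

/-- **W_SM**: `B_SM` for `SitW`, with the same proof; only `M₁` has to be totally complex. -/
def W_SM : Prop :=
  ∀ (p : ℕ) [Fact p.Prime] (k : Type) [NormedField k] [NormedAlgebra ℚ_[p] k]
    (K M K₁ M₁ : Type) [Field K] [NumberField K] [Field M] [NumberField M]
    [Field K₁] [NumberField K₁] [Field M₁] [NumberField M₁] [IsTotallyComplex M₁] [Algebra K M] [Algebra K K₁]
    [Algebra K M₁] [Algebra M M₁] [Algebra K₁ M₁] (ε : K₁)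
    (δ : M ≃ₐ[K] M) (P : (ZMod p)[X]) [Fact (Irreducible P)], SitW p K M K₁ M₁ ε δ P →
  ∀ (B : Base p K M K₁ M₁ ε δ P) (L : IwasawaLog p k) (T : Set (K →+* k)) (aτ : K₁ˣ)
    (n : ℕ) (E : TauN n B L T aτ) (tr : AdjoinRoot P →ₗ[ZMod p] ZMod p) (ψ₁ : AddChar (ZMod p) ℂ),
    tr ≠ 0 → ψ₁ ≠ 1 →
  ∃ K₀ : ℕ, 1 ≤ K₀ ∧ ∀ K' : ℕ, K₀ ≤ K' → SmF (sysN B E) (psK tr ψ₁) K'

/-- **W_KUE**: `B_KUE` for `SitW`, with the same proof. -/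
def W_KUE : Prop :=
  ∀ (p : ℕ) [Fact p.Prime] (K M K₁ M₁ : Type) [Field K] [NumberField K] [Field M] [NumberField M]
    [Field K₁] [NumberField K₁] [Field M₁] [NumberField M₁] [Algebra K M] [Algebra K K₁]
    [Algebra K M₁] [Algebra M M₁] [Algebra K₁ M₁] (ε : K₁)
    (δ : M ≃ₐ[K] M) (P : (ZMod p)[X]), SitW p K M K₁ M₁ ε δ P →
  ∀ (B : Base p K M K₁ M₁ ε δ P) (x : Fin B.r → AdjoinRoot P)
    (D : Finset (HeightOneSpectrum (𝓞 K))) (c : HeightOneSpectrum (𝓞 K) → AdjoinRoot P),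
    (∀ q ∈ D, q ∈ B.Vis ∧ c q ≠ 0) → (D.Nonempty ∨ x ≠ 0) →
  ∃ X₀ : Mˣ, (¬ ∃ y : M₁, y ^ p = algebraMap M M₁ (X₀ : M)) ∧
    ∀ v ∈ B.Vis, v ∉ D → ∑ i, x i * B.R v (B.u i) + ∑ q ∈ D, c q * B.A v q = 0 →
      ∀ W : HeightOneSpectrum (𝓞 M₁), Above W v → FreeP K W →
        LocPow p W (algebraMap M M₁ (X₀ : M))

/-- **W_KUM**: `B_KUM` for `SitW`, with the same proof. -/
def W_KUM : Prop :=
  ∀ (p : ℕ) [Fact p.Prime] (k : Type) [NormedField k] [NormedAlgebra ℚ_[p] k]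
    (K M K₁ M₁ : Type) [Field K] [NumberField K] [Field M] [NumberField M]
    [Field K₁] [NumberField K₁] [Field M₁] [NumberField M₁] [Algebra K M] [Algebra K K₁]
    [Algebra K M₁] [Algebra M M₁] [Algebra K₁ M₁] (ε : K₁)
    (δ : M ≃ₐ[K] M) (P : (ZMod p)[X]) [Fact (Irreducible P)], SitW p K M K₁ M₁ ε δ P →
  ∀ (B : Base p K M K₁ M₁ ε δ P) (L : IwasawaLog p k) (T : Set (K →+* k)) (aτ : K₁ˣ)
    (n : ℕ) (E : TauN n B L T aτ), KumF (sysN B E)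

end Pool.Agent.Helper42.PP1
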