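import Pool.Agent.Helper42.PP1.DEW
import Pool.Agent.Helper59.PP.PLAB
import Pool.Agent.Helper74.PP.PLFI

/-!
# Project PP, the case `m = 1`: W_LAB
-/

set_option autoImplicit false
set_option linter.unusedSectionVars false

namespace Pool.Agent.Helper42.PP1

open NumberField Polynomial Module IsDedekindDomain Pool.Agent.Helper51.SigLeo
open Pool.Agent.Helper51.RP Pool.Agent.Helper42.RD Pool.Agent.Helper42.PP
open Pool.Agent.Helper40.RS (bel gw bel_smul lies conj_of_bel free_gw absNorm_free val_smul)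
open Pool.Agent.Helper40.RD (bel_of_above ordW)
open Pool.Agent.Helper59.PP (hom_prod hom_inv hom_div labs_fin dvd_conj)

section main

variable {p : ℕ} [Fact p.Prime]
  {K M K₁ M₁ : Type} [Field K] [NumberField K] [Field M] [NumberField M] [Field K₁]
  [NumberField K₁] [Field M₁] [NumberField M₁] [Algebra K M] [Algebra K K₁] [Algebra K M₁]
  [Algebra M M₁] [Algebra K₁ M₁] {ε : K₁} {δ : M ≃ₐ[K] M} {P : (ZMod p)[X]}

/-- The degree is prime to `p`. -/
theorem copK (hs : SitW p K M K₁ M₁ ε δ P) : (finrank K K₁).Coprime p := by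
  have := hs.gK
  have h1 := Pool.Agent.Helper14.RD.finrank_dvd_pred p K K₁ ε hs.prim hs.gen
  exact Nat.Coprime.coprime_dvd_left h1 ((Nat.coprime_self_sub_left
    (Fact.out : p.Prime).one_le).2 (Nat.coprime_one_left p))

theorem deg_ne (hs : SitW p K M K₁ M₁ ε δ P) : (finrank K K₁ : ZMod p) ≠ 0 := by
  intro h
  rw [ZMod.natCast_eq_zero_iff] at h
  have h1 := (Nat.Prime.coprime_iff_not_dvd (Fact.out : p.Prime)).1 (copK hs).symm
  exact h1 h

/-- The class functionals of an element of type `ω`. -/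
theorem ch_eq (hDEW : W_DEW) (hs : SitW p K M K₁ M₁ ε δ P) (B : Base p K M K₁ M₁ ε δ P)
    (a : K₁ˣ) (ha : OmType p K ε (a : K₁)) (j : Fin B.t) :
    B.ch j a = ∑ q ∈ B.lab a, (q.1.2 : ZMod p) * B.cl j q.1.1 := by
  have hfin := labs_fin B a
  have h1 := (hDEW p K M K₁ M₁ ε δ P hs B a ha (zz B a)
    (fun v hv => ((mem_zz B hfin v).1 hv).1)
    (fun v hv hn => by
      by_contra h
      exact hn ((mem_zz B hfin v).2 ⟨hv, h⟩))).1 (B.ch j) (B.chO j)
  rw [sum_e B hfin (fun v => B.cl j v), h1]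
  have h2 : ∀ i, B.ch j (B.uw i) = 0 := fun i => B.chS j _ (B.uwS i)
  have h3 : ∑ i, B.rw i a * B.ch j (B.uw i) = 0 :=
    Finset.sum_eq_zero fun i _ => by rw [h2, mul_zero]
  rw [h3, zero_add]
  refine Finset.sum_congr rfl fun v _ => ?_
  have h4 : B.tilw (B.ch j) (B.y v) = B.ch j (B.y v) := by
    unfold Base.tilw
    rw [Finset.sum_eq_zero fun i _ => by rw [h2, zero_mul], sub_zero]
  rw [h4]
  unfold Base.cl
  ring

theorem om_prod (hOMG : P_OMG) (hs : SitW p K M K₁ M₁ ε δ P) {ι : Type} (s : Finset ι)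
    (f : ι → K₁ˣ) (n : ι → ℕ) (hf : ∀ i ∈ s, OmType p K ε (f i : K₁)) :
    OmType p K ε ((∏ i ∈ s, f i ^ n i : K₁ˣ) : K₁) := by
  classical
  have := hs.gK
  have h4 := (hOMG p K K₁ ε hs.prim hs.gen (copK hs)).2.2.2.2
  have h1 : OmType p K ε ((1 : K₁ˣ) : K₁) := by
    intro τ
    obtain ⟨n, c, hn, -⟩ := (hOMG p K K₁ ε hs.prim hs.gen (copK hs)).2.2.1 1 |>.choose_spec.1 τ
    exact ⟨n, 1, hn, by simp⟩
  have hpow : ∀ (x : K₁ˣ) (m : ℕ), OmType p K ε (x : K₁) → OmType p K ε ((x ^ m : K₁ˣ) : K₁) := by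
    intro x m hx
    induction m with
    | zero => rw [pow_zero]; exact h1
    | succ m ih => rw [pow_succ]; exact (h4 _ _ ih hx).1
  induction s using Finset.induction_on with
  | empty => rw [Finset.prod_empty]; exact h1
  | insert a s ha ih =>
    rw [Finset.prod_insert ha]
    exact (h4 _ _ (hpow _ _ (hf a (Finset.mem_insert_self a s)))
      (ih fun i hi => hf i (Finset.mem_insert_of_mem hi))).1

/-- An element with the given labels. -/
theorem exists_lab (hOMG : P_OMG) (hNZY : W_NZY) (hs : SitW p K M K₁ M₁ ε δ P)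
    (B : Base p K M K₁ M₁ ε δ P) (b : Finset B.LP)
    (hb : Set.InjOn (fun q : B.LP => q.1.1) (b : Set B.LP)) :
    ∃ a : K₁ˣ, OmType p K ε (a : K₁) ∧ B.lab a = b := by
  classical
  have := hs.gK
  obtain ⟨o1, -, o2, -, -⟩ := hOMG p K K₁ ε hs.prim hs.gen (copK hs)
  obtain ⟨-, hy, -⟩ := hNZY p K M K₁ M₁ ε δ P hs B
  choose ys hys1 hys2 _ using fun v : HeightOneSpectrum (𝓞 K) => o2 (B.y v)
  obtain ⟨a, ha⟩ : ∃ a : K₁ˣ, a = ∏ q ∈ b, ys q.1.1 ^
    ((finrank K K₁ : ZMod p) * (q.1.2 : ZMod p)).val := ⟨_, rfl⟩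
  have hao : OmType p K ε (a : K₁) := by
    rw [ha]
    exact om_prod hOMG hs b _ _ fun q _ => hys1 q.1.1
  have hg := deg_ne hs
  have hval : ∀ v ∈ B.calP, ordp p (B.Q v) a =
      ∑ q ∈ b, if v = q.1.1 then (q.1.2 : ZMod p) else 0 := by
    intro v hv
    have h1 := (o1 (ordp p (B.Q v)) (ordp_hom p (B.Q v))).2 a hao
    have hom := (o1 (ordp p (B.Q v)) (ordp_hom p (B.Q v))).1
    have h2 : wf p K ε (ordp p (B.Q v)) a =
        ∑ q ∈ b, (finrank K K₁ : ZMod p) * (if v = q.1.1 then (q.1.2 : ZMod p) else 0) := by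
      rw [ha, hom_prod hom.1]
      refine Finset.sum_congr rfl fun q hq => ?_
      rw [hom_pow hom.1, hys2 q.1.1 _ hom, nsmul_eq_mul, ZMod.natCast_zmod_val]
      by_cases h : v = q.1.1
      · subst h
        rw [(hy q.1.1 q.2).1, if_pos rfl, mul_one]
      · rw [(hy v hv).2 q.1.1 q.2 h, if_neg h, mul_zero, mul_zero]
    rw [h2, ← Finset.mul_sum] at h1
    exact (mul_left_cancel₀ hg h1).symm
  have hin : ∀ q ∈ b, ordp p (B.Q q.1.1) a = (q.1.2 : ZMod p) := by
    intro q hq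
    rw [hval q.1.1 q.2, Finset.sum_eq_single q]
    · rw [if_pos rfl]
    · intro q' hq' hne
      rw [if_neg]
      intro h
      exact hne (hb (Finset.mem_coe.2 hq') (Finset.mem_coe.2 hq) h.symm)
    · intro h; exact absurd hq h
  refine ⟨a, hao, ?_⟩
  have hfin := labs_fin B a
  ext q
  rw [mem_lab B hfin]
  constructor
  · intro h
    have h1 : ∃ q' ∈ b, q.1.1 = q'.1.1 := by
      by_contra hn
      push Not at hn
      have h2 := hval q.1.1 q.2
      rw [Finset.sum_eq_zero fun q' hq' => if_neg (hn q' hq'), h] at h2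
      exact Units.ne_zero _ h2
    obtain ⟨q', hq', he⟩ := h1
    have h3 := hin q' hq'
    rw [← he, h] at h3
    have h4 : q = q' := Subtype.ext (Prod.ext he (Units.ext h3))
    rw [h4]; exact hq'
  · exact hin q

theorem ordp_unit (B : Base p K M K₁ M₁ ε δ P) {v : HeightOneSpectrum (𝓞 K)} (hv : v ∈ B.calP)
    {x : K₁ˣ} (hx : x ∈ (up K₁ B.S).unit K₁) : ordp p (B.Q v) x = 0 := by
  have h1 : B.Q v ∉ up K₁ B.S := notMem_up hv.1 (B.Qa v hv).1
  have h2 := hx (B.Q v) h1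
  rw [ordp_zero_iff, (ordv_eq_zero_iff (B.Q v) x.ne_zero).2 h2]
  exact dvd_zero _

theorem lab_congr (B : Base p K M K₁ M₁ ε δ P) {a a' : K₁ˣ}
    (h : ∀ v ∈ B.calP, ordp p (B.Q v) a = ordp p (B.Q v) a') : B.lab a = B.lab a' := by
  ext q
  rw [mem_lab B (labs_fin B a), mem_lab B (labs_fin B a'), h q.1.1 q.2]

/-- The values of the class functionals fill the whole space. -/
theorem ch_surj (B : Base p K M K₁ M₁ ε δ P) (γ : Fin B.t → ZMod p) :
    ∃ x : K₁ˣ, ∀ j, B.ch j x = γ j := by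
  classical
  -- the image is a submodule
  let V : Submodule (ZMod p) (Fin B.t → ZMod p) :=
    { carrier := {c | ∃ x : K₁ˣ, ∀ j, B.ch j x = c j}
      add_mem' := by
        rintro c c' ⟨x, hx⟩ ⟨y, hy⟩
        exact ⟨x * y, fun j => by rw [(B.chO j).1, hx, hy]; rfl⟩
      zero_mem' := ⟨1, fun j => by rw [hom_one (B.chO j).1]; rfl⟩
      smul_mem' := by
        rintro r c ⟨x, hx⟩
        refine ⟨x ^ r.val, fun j => ?_⟩
        rw [hom_pow (B.chO j).1, hx, nsmul_eq_mul, ZMod.natCast_zmod_val]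
        rfl }
  have hV : V = ⊤ := by
    by_contra hne
    obtain ⟨f, hf0, hf⟩ := Submodule.exists_le_ker_of_lt_top V (lt_top_iff_ne_top.2 hne)
    apply hf0
    have h1 : (fun j => f (Pi.single j 1)) = 0 := by
      apply B.chI
      intro x
      have h2 : (fun j => B.ch j x) ∈ V := ⟨x, fun j => rfl⟩
      have h3 : f (fun j => B.ch j x) = 0 := hf h2
      rw [LinearMap.pi_apply_eq_sum_univ] at h3
      rw [← h3]
      refine Finset.sum_congr rfl fun j _ => ?_
      rw [smul_eq_mul, mul_comm]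
      congr 2
      funext i
      rw [Pi.single_apply]
      simp only [eq_comm]
    refine LinearMap.ext fun c => ?_
    rw [LinearMap.pi_apply_eq_sum_univ]
    refine Finset.sum_eq_zero fun j _ => ?_
    have h4 := congrFun h1 j
    have h5 : (Pi.single j 1 : Fin B.t → ZMod p) = fun i => if j = i then 1 else 0 := by
      funext i
      rw [Pi.single_apply]
      simp only [eq_comm]
    rw [← h5, h4]
    simp
  have h : γ ∈ V := by rw [hV]; exact Submodule.mem_top
  exact h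

theorem w_lab : W_LAB := by
  have h1 := Pool.Agent.Helper22.PP.p_omg
  have h2 := w_nzy
  have h3 := w_dew
  have h4 := Pool.Agent.Helper16.PP.p_upr
  have h5 := Pool.Agent.Helper74.PP.p_lfi
  classical
  intro p _ k _ _ K M K₁ M₁ _ _ _ _ _ _ _ _ _ _ _ _ _ ε δ P _ hs L T B aτ n E haτ
  have := hs.st1
  have := hs.st2
  have := hs.gM
  have := hs.gK
  have := hs.gMK
  have g1 : IsGalois M M₁ := IsGalois.tower_top_of_isGalois K M M₁
  have g2 : IsGalois K₁ M₁ := IsGalois.tower_top_of_isGalois K K₁ M₁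
  have c1 := hs.c1
  have c2 := hs.c2
  obtain ⟨o1, o5, o2, o3, o4⟩ := h1 p K K₁ ε hs.prim hs.gen (copK hs)
  obtain ⟨-, -, -, -, -, -, ucj⟩ := h4 p K K₁ B.S
  have hdiv : ∀ x y : K₁ˣ, OmType p K ε (x : K₁) → OmType p K ε (y : K₁) →
      OmType p K ε ((x / y : K₁ˣ) : K₁) := by
    intro x y hx hy
    rw [div_eq_mul_inv]
    exact (o4 _ _ hx (o4 _ _ hy hy).2).1
  have hcl : ∀ a : K₁ˣ, OmType p K ε (a : K₁) →
      ∑ q ∈ B.lab a, (sysN B E).cls q = fun j => B.ch j a := by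
    intro a ha
    funext j
    rw [Finset.sum_apply, ch_eq h3 hs B a ha j]
    rfl
  refine ⟨?_, ?_, ?_, ?_⟩
  · intro a ha
    have hfin := labs_fin B a
    refine ⟨hfin, ?_, ?_, ?_⟩
    · intro v hv W hW
      obtain ⟨Q, hQ⟩ : ∃ Q, Q = bel K₁ W := ⟨_, rfl⟩
      have hWQ : Above W Q := by rw [hQ]; rfl
      have hQv : Above Q v := bel_of hW hWQ
      rw [(Pool.Agent.Helper40.RD.e_trf p K₁ M₁ c2 W Q hWQ).1 (a : K₁), ordp_zero_iff]
      exact dvd_conj (K := K) hs.prim a ha (ucj v (B.Q v) Q (B.Qa v hv).1 hQv)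
    · intro v hvS hv W hW
      obtain ⟨Q, hQ⟩ : ∃ Q, Q = bel K₁ W := ⟨_, rfl⟩
      have hWQ : Above W Q := by rw [hQ]; rfl
      have hQv : Above Q v := bel_of hW hWQ
      rw [(Pool.Agent.Helper40.RD.e_trf p K₁ M₁ c2 W Q hWQ).1 (a : K₁)]
      exact o3 a ha Q fun hf => hv ⟨hvS, Q, hQv, hf⟩
    · intro hloc
      refine ⟨lab_inj B hfin, ?_⟩
      rw [hcl a ha]
      funext j
      have h6 := B.chL j _ hloc
      rw [hom_div (B.chO j).1, sub_eq_zero] at h6
      exact h6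
  · rintro b ⟨hb1, hb2⟩
    obtain ⟨a₀, ha₀, hlab⟩ := exists_lab h1 h2 hs B b hb1
    have h6 : ∀ j, B.ch j a₀ = B.ch j aτ := by
      intro j
      have h7 := hcl a₀ ha₀
      rw [hlab, hb2] at h7
      exact (congrFun h7 j).symm
    obtain ⟨x, hx, hxo, hxl⟩ := B.chC (a₀ / aτ) (hdiv _ _ ha₀ haτ) (fun j => by
      rw [hom_div (B.chO j).1, h6, sub_self])
    refine ⟨a₀ * x, (o4 _ _ ha₀ hxo).1, ?_, ?_⟩
    · rw [mul_div_right_comm]; exact hxl
    · rw [← hlab]
      apply lab_congr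
      intro v hv
      rw [ordp_hom p (B.Q v), ordp_unit B hv hx, add_zero]
  · intro a a' ha ha' hl hl' hlab
    have hfin := labs_fin B a
    have hfin' := labs_fin B a'
    have h6 : ∀ v ∈ B.calP, ordp p (B.Q v) a = ordp p (B.Q v) a' := by
      intro v hv
      by_cases h0 : ordp p (B.Q v) a = 0
      · by_cases h0' : ordp p (B.Q v) a' = 0
        · rw [h0, h0']
        · have h7 : (⟨(v, Units.mk0 _ h0'), hv⟩ : B.LP) ∈ B.lab a' := (mem_lab B hfin' _).2 rfl
          rw [← hlab, mem_lab B hfin] at h7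
          exact h7
      · have h7 : (⟨(v, Units.mk0 _ h0), hv⟩ : B.LP) ∈ B.lab a := (mem_lab B hfin _).2 rfl
        rw [hlab, mem_lab B hfin'] at h7
        exact h7.symm
    refine (h3 p K M K₁ M₁ ε δ P hs B (a / a') (hdiv _ _ ha ha') ∅
      (fun v hv => absurd hv (Finset.notMem_empty v)) ?_).2.1 ?_ ?_
    · intro v hv _
      rw [hom_div (ordp_hom p (B.Q v)), h6 v hv, sub_self]
    · intro i
      have e1 := B.rwL i _ hl
      have e2 := B.rwL i _ hl'
      rw [hom_div (B.rwO i).1] at e1 e2 ⊢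
      rw [sub_eq_zero] at e1 e2
      rw [e1, e2, sub_self]
    · intro v hv
      rw [hom_div (ordp_hom p (B.Q v)), h6 v hv, sub_self]
  · intro γ
    obtain ⟨x, hx⟩ := ch_surj B γ
    obtain ⟨a, ha, hga, -⟩ := o2 x
    refine ⟨B.lab a, lab_inj B (labs_fin B a), ?_⟩
    rw [hcl a ha]
    funext j
    rw [hga _ (B.chO j), hx]

end main

end Pool.Agent.Helper42.PP1
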