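import Pool.Agent.Helper42.PP.Goals2

/-!
# Project PP, the case `m = 1` (`χ₀ = 1`): definitions

`SitW` is a weaker form of `Sit`, which contains the properties of the tower which are used in part B. It
covers the case `M = K`, `M₁ = K₁`, `δ = 1`, `P = X - 1`. `TauN n` is `Tau` with `n` local conditions.
-/

set_option autoImplicit false

namespace Pool.Agent.Helper42.PP1

open NumberField Polynomial Module IsDedekindDomain Pool.Agent.Helper51.SigLeo
open Pool.Agent.Helper51.RP Pool.Agent.Helper42.RD Pool.Agent.Helper42.PP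

/-- The properties of the fields which are used in part B. -/
structure SitW (p : ℕ) [Fact p.Prime] (K M K₁ M₁ : Type) [Field K] [NumberField K] [Field M]
    [NumberField M] [Field K₁] [NumberField K₁] [Field M₁] [NumberField M₁] [Algebra K M]
    [Algebra K K₁] [Algebra K M₁] [Algebra M M₁] [Algebra K₁ M₁] (ε : K₁) (δ : M ≃ₐ[K] M)
    (P : (ZMod p)[X]) : Prop where
  st1 : IsScalarTower K M M₁
  st2 : IsScalarTower K K₁ M₁
  gM : IsGalois K M
  gK : IsGalois K K₁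
  gMK : IsGalois K M₁
  prim : IsPrimitiveRoot ε p
  gen : ∀ σ : K₁ ≃ₐ[K] K₁, σ ε = ε → σ = 1
  lin : ∀ g : M₁ ≃ₐ[K] M₁, (∀ x : M, g (algebraMap M M₁ x) = algebraMap M M₁ x) →
    (∀ x : K₁, g (algebraMap K₁ M₁ x) = algebraMap K₁ M₁ x) → g = 1
  ord : orderOf δ = finrank K M
  irr : Irreducible P
  dvdP : P ∣ X ^ finrank K M - 1
  copm : (finrank K M).Coprime p
  c1 : (finrank M M₁).Coprime p
  c2 : (finrank K₁ M₁).Coprime p
  nsp : ∀ w : HeightOneSpectrum (𝓞 M), ¬ FreeP K w → ∀ x : Mˣ, Pw p (pol P δ x) →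
    (p : ℤ) ∣ ordv w (x : M)
  vis : ∀ v : HeightOneSpectrum (𝓞 K), v.valuation K (p : K) = 1 →
    (∀ W : HeightOneSpectrum (𝓞 M₁), Above W v → FreeP K W →
      Ideal.absNorm W.asIdeal = Ideal.absNorm v.asIdeal ∧
      (∀ w : HeightOneSpectrum (𝓞 M), Above W w → FreeP K w ∧
        Ideal.absNorm w.asIdeal = Ideal.absNorm v.asIdeal ∧ Above w v) ∧
      ∀ Q : HeightOneSpectrum (𝓞 K₁), Above W Q → FreeP K Q ∧
        Ideal.absNorm Q.asIdeal = Ideal.absNorm v.asIdeal ∧ Above Q v) ∧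
    (∀ (w : HeightOneSpectrum (𝓞 M)) (Q : HeightOneSpectrum (𝓞 K₁))
      (W : HeightOneSpectrum (𝓞 M₁)),
      Above w v → Above Q v → Above W v → FreeP K w → FreeP K Q → FreeP K W) ∧
    ∀ Q : HeightOneSpectrum (𝓞 K₁), Above Q v → FreeP K Q →
      Ideal.absNorm Q.asIdeal = Ideal.absNorm v.asIdeal ∧ p ∣ Ideal.absNorm v.asIdeal - 1

/-- `Tau` with `n` local conditions. -/
structure TauN {p : ℕ} [Fact p.Prime] {k : Type} [NormedField k] {K M K₁ M₁ : Type} [Field K]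
    [NumberField K] [Field M] [NumberField M] [Field K₁] [NumberField K₁] [Field M₁]
    [NumberField M₁] [Algebra K M] [Algebra K K₁] [Algebra K M₁] [Algebra M M₁] [Algebra K₁ M₁]
    {ε : K₁} {δ : M ≃ₐ[K] M} {P : (ZMod p)[X]} (n : ℕ) (B : Base p K M K₁ M₁ ε δ P)
    (L : IwasawaLog p k) (T : Set (K →+* k)) (aτ : K₁ˣ) where
  h : Fin n → Mˣ → AdjoinRoot P
  hP : ∀ j, IsP δ P (h j)
  hL : ∀ j x, LocS p (up M B.S) x → h j x = 0
  hS : ∀ j x, Pw p (pol P δ x) → (∀ W ∈ up M₁ B.S,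
    LocAt p W (algebraMap K₁ M₁ (aτ : K₁)) (algebraMap M M₁ (x : M))) →
    LocSig L (above T) x → h j x = 0
  hI : ∀ c : Fin n → AdjoinRoot P, (∀ x, ∑ j, c j * h j x = 0) → c = 0

section sysN

variable {p : ℕ} [Fact p.Prime] {k : Type} [NormedField k] {K M K₁ M₁ : Type} [Field K]
    [NumberField K] [Field M] [NumberField M] [Field K₁] [NumberField K₁] [Field M₁]
    [NumberField M₁] [Algebra K M] [Algebra K K₁] [Algebra K M₁] [Algebra M M₁] [Algebra K₁ M₁]
    {ε : K₁} {δ : M ≃ₐ[K] M} {P : (ZMod p)[X]} [Fact (Irreducible P)] {n : ℕ}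
    (B : Base p K M K₁ M₁ ε δ P) {L : IwasawaLog p k} {T : Set (K →+* k)} {aτ : K₁ˣ}
    (E : TauN n B L T aτ)

/-- The abstract system attached to the local class of `aτ`. -/
noncomputable def sysN : Pool.Agent.Helper17.PP.Sys p B.LP (HeightOneSpectrum (𝓞 K))
    (AdjoinRoot P) (Fin B.r → AdjoinRoot P) (Fin n → AdjoinRoot P) (Fin B.t → ZMod p) where
  bs q := q.1.1
  N q := Ideal.absNorm q.1.1.asIdeal
  spl q := q.1.1 ∈ B.Vis
  cls q j := (q.1.2 : ZMod p) * B.cl j q.1.1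
  cl₀ j := B.ch j aτ
  lam₀ := LinearMap.pi fun j ↦ ∑ i, (LinearMap.proj i).smulRight (E.h j (B.u i))
  lam q := LinearMap.pi fun j ↦
    LinearMap.id.smulRight (B.til (E.h j) (nrm M M₁ (B.z q.1.1)))
  res q := ∑ i, (LinearMap.proj i).smulRight (B.R q.1.1 (B.u i))
  a q q' := B.A q.1.1 q'.1.1
  dg q := B.A q.1.1 q.1.1 - algebraMap (ZMod p) (AdjoinRoot P)
    ((q.1.2 : ZMod p)⁻¹ * B.sv aτ q.1.1 + B.pi q.1.1 q.1.1)
  kap q q' := - ((q'.1.2 : ZMod p) * (q.1.2 : ZMod p)⁻¹ * B.pi q.1.1 q'.1.1)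
  two_le q := by
    have h1 : Ideal.absNorm q.1.1.asIdeal ≠ 1 := by
      rw [Ne, Ideal.absNorm_eq_one_iff]
      exact q.1.1.isPrime.ne_top
    have h0 : Ideal.absNorm q.1.1.asIdeal ≠ 0 := by
      rw [Ne, Ideal.absNorm_eq_zero_iff]
      exact q.1.1.ne_bot
    omega
  fin Z := by
    have h : {v : HeightOneSpectrum (𝓞 K) | Ideal.absNorm v.asIdeal ≤ Z}.Finite := by
      refine Set.Finite.of_finite_image (f := HeightOneSpectrum.asIdeal) ?_ ?_
      · refine (Ideal.finite_setOfPred_absNorm_le (S := 𝓞 K) Z).subset ?_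
        rintro _ ⟨v, hv, rfl⟩
        exact hv
      · intro v _ w _ h
        exact HeightOneSpectrum.ext h
    have h2 : (({v : HeightOneSpectrum (𝓞 K) | Ideal.absNorm v.asIdeal ≤ Z}) ×ˢ
        (Set.univ : Set (ZMod p)ˣ)).Finite := h.prod Set.finite_univ
    refine Set.Finite.of_finite_image (f := Subtype.val) (h2.subset ?_)
      Subtype.val_injective.injOn
    rintro _ ⟨q, hq, rfl⟩
    exact ⟨hq, Set.mem_univ _⟩
  bsN q q' h := by
    have h' : q.1.1 = q'.1.1 := h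
    rw [h']
  bsS q q' h := by
    have h' : q.1.1 = q'.1.1 := h
    rw [h']

end sysN

end Pool.Agent.Helper42.PP1
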