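import Pool.Agent.Helper42.PP1.SEL
import Pool.Agent.Helper79.PP.PVIS

/-!
# Project PP, the case `m = 1`: the situation
-/

set_option autoImplicit false

namespace Pool.Agent.Helper42.PP1

open NumberField Polynomial Module IsDedekindDomain Pool.Agent.Helper51.SigLeo
open Pool.Agent.Helper51.RP Pool.Agent.Helper42.RD Pool.Agent.Helper42.PP
open Pool.Agent.Helper40.RS (bel gw bel_smul lies conj_of_bel free_gw absNorm_free val_smul)
open Pool.Agent.Helper13.RD (eq_gw ram_free eq_of_val)
open Pool.Agent.Helper40.RD (bel_of_above ordW)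

theorem subs_aut (K : Type) [Field K] (g : K ≃ₐ[K] K) : g = 1 := by
  ext x
  exact g.commutes x

theorem freeP_self {K : Type} [Field K] [NumberField K] (w : HeightOneSpectrum (𝓞 K)) :
    FreeP K w := fun g _ => subs_aut K g

theorem above_self {K : Type} [Field K] [NumberField K] {w v : HeightOneSpectrum (𝓞 K)}
    (h : Above w v) : w = v := by
  apply HeightOneSpectrum.ext
  have h1 : w.asIdeal.comap (algebraMap (𝓞 K) (𝓞 K)) = v.asIdeal := h
  rw [← h1]
  ext x
  rfl

theorem sitW_one (p : ℕ) [Fact p.Prime] (K K₁ : Type) [Field K] [NumberField K] [Field K₁]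
    [NumberField K₁] [Algebra K K₁] [IsGalois K K₁] (ε : K₁) (hε : IsPrimitiveRoot ε p)
    (hgen : ∀ σ : K₁ ≃ₐ[K] K₁, σ ε = ε → σ = 1) :
    SitW p K K K₁ K₁ ε (1 : K ≃ₐ[K] K) (X - 1 : (ZMod p)[X]) where
  st1 := inferInstance
  st2 := inferInstance
  gM := inferInstance
  gK := inferInstance
  gMK := inferInstance
  prim := hε
  gen := hgen
  lin := fun g _ h => by ext x; exact h x
  ord := by rw [orderOf_one, Module.finrank_self]
  irr := by
    have h := irreducible_X_sub_C (1 : ZMod p)
    rwa [map_one] at h
  dvdP := by rw [Module.finrank_self, pow_one]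
  copm := by rw [Module.finrank_self]; exact Nat.coprime_one_left p
  c1 := by
    have h1 := Pool.Agent.Helper14.RD.finrank_dvd_pred p K K₁ ε hε hgen
    exact Nat.Coprime.coprime_dvd_left h1 ((Nat.coprime_self_sub_left
      (Fact.out : p.Prime).one_le).2 (Nat.coprime_one_left p))
  c2 := by rw [Module.finrank_self]; exact Nat.coprime_one_left p
  nsp := fun w hw => absurd (freeP_self w) hw
  vis := by
    intro v hv
    refine ⟨?_, ?_, ?_⟩
    · intro W hWv hW
      have hb : bel K W = v := bel_of_above hWv
      have hnorm : Ideal.absNorm W.asIdeal = Ideal.absNorm v.asIdeal := by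
        rw [← hb]
        exact absNorm_free W hW
      refine ⟨hnorm, ?_, ?_⟩
      · intro w hw
        have h1 : w = v := (bel_of_above hw).symm.trans hb
        subst h1
        exact ⟨freeP_self w, rfl, rfl⟩
      · intro Q hQ
        have h1 := above_self hQ
        subst h1
        exact ⟨hW, hnorm, hWv⟩
    · intro w Q W hw hQ hW hwf hQf
      exact free_of_conj (conj_of_bel' ((bel_of_above hW).trans (bel_of_above hQ).symm)) hQf
    · intro Q hQv hQ
      have hb : bel K Q = v := bel_of_above hQv
      have hnorm : Ideal.absNorm Q.asIdeal = Ideal.absNorm v.asIdeal := by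
        rw [← hb]
        exact absNorm_free Q hQ
      refine ⟨hnorm, ?_⟩
      rw [← hnorm]
      apply Pool.Agent.Helper79.PP.dvd_norm hε
      have h := Pool.Agent.Helper40.RD.valW (M := K) Q (p : K)
      rw [hb, hv, one_pow, map_natCast] at h
      exact h

end Pool.Agent.Helper42.PP1
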