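import Pool.Agent.Helper42.PP1.Goals
import Pool.Agent.Helper8.PP.PSLG

/-!
# Project PP, the case `m = 1`: W_SLG
-/

set_option autoImplicit false
set_option linter.unusedSectionVars false

namespace Pool.Agent.Helper42.PP1

open NumberField Polynomial Module IsDedekindDomain Pool.Agent.Helper51.SigLeo
open Pool.Agent.Helper51.RP Pool.Agent.Helper42.RD Pool.Agent.Helper42.PP
open Pool.Agent.Helper8.PP

theorem w_slg : W_SLG := by
  intro p hp k _ _ _ K M K₁ M₁ _ _ _ _ _ _ _ _ _ _ _ _ _ ε δ P hSit L T S a ha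
  have hpp : p.Prime := Fact.out
  have hp0 : p ≠ 0 := hpp.ne_zero
  have := hSit.st1
  have := hSit.st2
  have := hSit.gM
  have := hSit.gK
  have := hSit.gMK
  constructor
  · intro x hx
    refine ⟨?_, ?_, ?_⟩
    · obtain ⟨y, hy⟩ := hx.pol
      exact ⟨act δ y, by rw [pol_act, hy, map_pow]⟩
    · -- the extension of `δ`
      set g : M₁ ≃ₐ[K] M₁ := AlgEquiv.liftNormal δ M₁ with hg
      have hgM : ∀ y : M, g (algebraMap M M₁ y) = algebraMap M M₁ (δ y) := fun y =>
        AlgEquiv.liftNormal_commutes δ M₁ y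
      set σ : K₁ ≃ₐ[K] K₁ := AlgEquiv.restrictNormal g K₁ with hσ
      have hgK : ∀ y : K₁, algebraMap K₁ M₁ (σ y) = g (algebraMap K₁ M₁ y) := fun y =>
        AlgEquiv.restrictNormal_commutes g K₁ y
      obtain ⟨n, c, hn, hc⟩ := ha σ
      have hcop : n.Coprime p := by
        rw [Nat.coprime_comm, hpp.coprime_iff_not_dvd]
        rintro ⟨m, rfl⟩
        rw [pow_mul, hSit.prim.pow_eq_one, one_pow] at hn
        have h1 : ε = 1 := by
          apply σ.injective
          rw [hn, map_one]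
        have h2 := hSit.prim
        rw [h1] at h2
        exact hpp.one_lt.ne' (h2.unique IsPrimitiveRoot.one)
      have hc0 : c ≠ 0 := by
        rintro rfl
        rw [zero_pow hp0, mul_zero] at hc
        exact a.ne_zero ((map_eq_zero σ).1 hc)
      have hA0 : algebraMap K₁ M₁ (a : K₁) ≠ 0 := (_root_.map_ne_zero _).2 a.ne_zero
      have hC0 : algebraMap K₁ M₁ c ≠ 0 := (_root_.map_ne_zero _).2 hc0
      have hgA : g (algebraMap K₁ M₁ (a : K₁)) =
          algebraMap K₁ M₁ (a : K₁) ^ n * algebraMap K₁ M₁ c ^ p := by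
        rw [← hgK, hc, map_mul, map_pow, map_pow]
      intro W
      obtain ⟨W', -, hW'⟩ := Pool.Agent.Helper90.RP.exists_pull (K := K) g W
      have hloc := hx.loc W'
      have hxx : algebraMap M M₁ ((act δ x : Mˣ) : M) = g (algebraMap M M₁ (x : M)) := (hgM _).symm
      rw [hxx]
      have hordA : ordv W' (algebraMap K₁ M₁ (a : K₁)) =
          n * ordv W (algebraMap K₁ M₁ (a : K₁)) + p * ordv W (algebraMap K₁ M₁ c) := by
        rw [← ordv_conj g hW', hgA, ordv_mul W (pow_ne_zero _ hA0) (pow_ne_zero _ hC0), ordv_pow,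
          ordv_pow]
      refine ⟨fun hd => ?_, fun hd => ?_⟩
      · rw [ordv_conj g hW']
        apply hloc.1
        rw [hordA]
        exact dvd_add (hd.mul_left _) (dvd_mul_right _ _)
      · have hd' : ¬ (p : ℤ) ∣ ordv W' (algebraMap K₁ M₁ (a : K₁)) := by
          intro h
          rw [hordA] at h
          have h1 := (Int.dvd_add_left (dvd_mul_right (p : ℤ) _)).1 h
          have h2 : IsCoprime (p : ℤ) (n : ℤ) := by
            rw [Int.isCoprime_iff_gcd_eq_one]
            exact_mod_cast (Nat.coprime_comm.1 hcop)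
          exact hd (h2.dvd_of_dvd_mul_left h1)
        obtain ⟨i, hi⟩ := hloc.2 hd'
        have h3 := (locPow_conj g hW' _).2 hi
        refine ⟨n * i, ?_⟩
        rw [map_mul, map_pow, map_mul, hgA] at h3
        have e : g (algebraMap M M₁ (x : M)) *
            (g ((-1) ^ (p - 1)) *
              (algebraMap K₁ M₁ (a : K₁) ^ n * algebraMap K₁ M₁ c ^ p)) ^ i =
            g (algebraMap M M₁ (x : M)) *
              ((-1) ^ (p - 1) * algebraMap K₁ M₁ (a : K₁)) ^ (n * i) *
              (algebraMap K₁ M₁ c ^ i) ^ p := by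
          have e1 : g ((-1) ^ (p - 1)) = ((-1) ^ (p - 1) : M₁) ^ n := by
            rw [map_pow, map_neg, map_one]
            exact neg_one_pow_pow hpp hcop
          rw [e1, pow_mul, mul_pow (_ : M₁) _ n]
          ring
        rw [e] at h3
        exact (locPow_mul_pth W (pow_ne_zero _ hC0)).1 h3
    · exact Pool.Agent.Helper90.RP.loc_delta L δ hx.sig
  · intro aτ hS W hW x
    obtain ⟨y, hy⟩ := hS
    obtain ⟨v, hv, hWv⟩ := hW
    obtain ⟨Q, hQ⟩ := Pool.Agent.Helper95.RL.exists_below (M := K₁) W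
    have hQv : Above Q v := Pool.Agent.Helper96.RL.above_mid hQ hWv
    have h1 : LocPow p Q (((a / aτ : K₁ˣ) : K₁)) := ⟨(y : K₁), (hy Q ⟨v, hv, hQv⟩).1⟩
    have h2 := Pool.Agent.Helper17.RL.locPow_up p hQ _ h1
    rw [Units.val_div_eq_div_val, map_div₀] at h2
    have hA0 : algebraMap K₁ M₁ (a : K₁) ≠ 0 := (_root_.map_ne_zero _).2 a.ne_zero
    have hB0 : algebraMap K₁ M₁ (aτ : K₁) ≠ 0 := (_root_.map_ne_zero _).2 aτ.ne_zero
    refine ⟨locAt_of W hp0 hA0 hB0 h2, locAt_of W hp0 hB0 hA0 ?_⟩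
    have h3 := locPow_inv W h2
    rwa [inv_div] at h3

end Pool.Agent.Helper42.PP1
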