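import Pool.Agent.Helper42.PP1.LAB
import Pool.Agent.Helper42.PP1.SLG
import Pool.Agent.Helper42.PP.SEL

/-!
# Project PP, the case `m = 1`: W_SEL
-/

set_option autoImplicit false
set_option linter.unusedSectionVars false

namespace Pool.Agent.Helper42.PP1

open NumberField Polynomial Module IsDedekindDomain Pool.Agent.Helper51.SigLeo
open Pool.Agent.Helper51.RP Pool.Agent.Helper42.RD Pool.Agent.Helper42.PP
open Pool.Agent.Helper40.RS (bel gw bel_smul lies conj_of_bel free_gw absNorm_free val_smul)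
open Pool.Agent.Helper13.RD (eq_gw ram_free eq_of_val)
open Pool.Agent.Helper40.RD (bel_of_above ordW)

section main

variable {p : ℕ} [Fact p.Prime] {k : Type} [NormedField k] [NormedAlgebra ℚ_[p] k] [IsUltrametricDist k]
  {K M K₁ M₁ : Type} [Field K] [NumberField K] [Field M] [NumberField M] [Field K₁]
  [NumberField K₁] [Field M₁] [NumberField M₁] [Algebra K M] [Algebra K K₁] [Algebra K M₁]
  [Algebra M M₁] [Algebra K₁ M₁] {ε : K₁} {δ : M ≃ₐ[K] M} {P : (ZMod p)[X]}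

/-- The condition at a visible ramified prime, for one element. -/
theorem tame_eq (hNZY : W_NZY) (hs : SitW p K M K₁ M₁ ε δ P) (B : Base p K M K₁ M₁ ε δ P)
    {v : HeightOneSpectrum (𝓞 K)} (hv : v ∈ B.Vis) (a : K₁ˣ)
    (ha : ordp p (B.Q v) a ≠ 0) (y : Mˣ)
    (hy : LocAt p (B.W v) (algebraMap K₁ M₁ (a : K₁)) (algebraMap M M₁ (y : M))) :
    ordp p (B.Q v) a * B.th v (inc M M₁ y) = ordp p (B.w v) y * B.th v (ast p K₁ M₁ a) := by
  have hp0 : p ≠ 0 := (Fact.out : p.Prime).ne_zero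
  obtain ⟨h1, h2⟩ := (hNZY p K M K₁ M₁ ε δ P hs B).2.2.2 v hv
  have hn : ¬ (p : ℤ) ∣ ordv (B.W v) (algebraMap K₁ M₁ (a : K₁)) := by
    rw [h2]
    exact fun h => ha (ordp_zero_iff.2 h)
  obtain ⟨i, hi⟩ := hy.2 hn
  have e1 : algebraMap M M₁ (y : M) * ((-1) ^ (p - 1) * algebraMap K₁ M₁ (a : K₁)) ^ i =
      ((inc M M₁ y * (ast p K₁ M₁ a) ^ i : M₁ˣ) : M₁) := by
    simp [ast, inc]
  rw [e1] at hi
  have h3 : B.th v (inc M M₁ y * (ast p K₁ M₁ a) ^ i) = 0 := by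
    rw [B.thk v hv]
    exact ⟨0, by rw [pow_zero, mul_one]; exact hi⟩
  rw [B.thh v hv, hom_pow (B.thh v hv)] at h3
  have h4 := ord_of_locPow hp0 hi
  have h5 : ordp p (B.W v) (inc M M₁ y * (ast p K₁ M₁ a) ^ i) = 0 := ordp_zero_iff.2 h4
  rw [ordp_hom p (B.W v), hom_pow (ordp_hom p (B.W v))] at h5
  have h6 : ordp p (B.W v) (inc M M₁ y) = ordp p (B.w v) y := by
    show ((ordv (B.W v) (algebraMap M M₁ (y : M)) : ℤ) : ZMod p) = _
    rw [h1]; rfl
  have h7 : ordp p (B.W v) (ast p K₁ M₁ a) = ordp p (B.Q v) a := by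
    have h8 : ordv (B.W v) ((ast p K₁ M₁ a : M₁ˣ) : M₁) = ordv (B.Q v) (a : K₁) := by
      rw [← h2]
      have e2 : ((ast p K₁ M₁ a : M₁ˣ) : M₁) = (-1) ^ (p - 1) * algebraMap K₁ M₁ (a : K₁) := by
        simp [ast, inc]
      rw [e2]
      exact ordv_sg (B.W v) (p - 1) _
    show ((ordv (B.W v) ((ast p K₁ M₁ a : M₁ˣ) : M₁) : ℤ) : ZMod p) = _
    rw [h8]; rfl
  rw [h6, h7] at h5
  have h9 : B.th v (inc M M₁ y) = -(i • B.th v (ast p K₁ M₁ a)) := eq_neg_of_add_eq_zero_left h3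
  have h10 : ordp p (B.w v) y = -(i • ordp p (B.Q v) a) := eq_neg_of_add_eq_zero_left h5
  rw [h9, h10]
  simp only [nsmul_eq_mul]
  ring


/-- The support of the Selmer element. -/
theorem sel_supp (hOMG : P_OMG) (hLAB : W_LAB) [Fact (Irreducible P)]
    (hs : SitW p K M K₁ M₁ ε δ P) (L : IwasawaLog p k) (T : Set (K →+* k))
    (B : Base p K M K₁ M₁ ε δ P) (aτ : K₁ˣ) (n : ℕ) (E : TauN n B L T aτ) (haτ : OmType p K ε (aτ : K₁))
    (a : K₁ˣ) (ha : OmType p K ε (a : K₁)) (x : Mˣ)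
    (hx : Sel L (above T) P δ (algebraMap K₁ M₁ (a : K₁)) x)
    (w : HeightOneSpectrum (𝓞 M)) (hw : w ∉ up M B.S) (hn : ¬ (p : ℤ) ∣ ordv w (x : M)) :
    ∃ v ∈ B.Vis, Above w v ∧ ordp p (B.Q v) a ≠ 0 := by
  have := hs.st1
  have := hs.st2
  have := hs.gM
  have := hs.gK
  have := hs.gMK
  have hcopK : (finrank K K₁).Coprime p := by
    have h1 := Pool.Agent.Helper14.RD.finrank_dvd_pred p K K₁ ε hs.prim hs.gen
    exact Nat.Coprime.coprime_dvd_left h1 ((Nat.coprime_self_sub_left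
      (Fact.out : p.Prime).one_le).2 (Nat.coprime_one_left p))
  have g1 : IsGalois M M₁ := IsGalois.tower_top_of_isGalois K M M₁
  have g2 : IsGalois K₁ M₁ := IsGalois.tower_top_of_isGalois K K₁ M₁
  have c1 := hs.c1
  have c2 := hs.c2
  have hfree : FreeP K w := by
    by_contra hf
    exact hn (hs.nsp w hf x hx.pol)
  obtain ⟨W, hW⟩ := exists_bel (M₁ := M₁) w
  have hWw : Above W w := by rw [← hW]; rfl
  obtain ⟨v, hv⟩ : ∃ v, v = bel K w := ⟨_, rfl⟩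
  have hvS : v ∉ B.S := by rw [hv]; exact bel_notMem hw
  have hwv : Above w v := by rw [hv]; rfl
  have hWv : Above W v := by
    have h1 := bel_bel (K := K) (M := M) W
    rw [hW, ← hv] at h1
    rw [h1]; rfl
  obtain ⟨Q, hQ⟩ : ∃ Q, Q = bel K₁ W := ⟨_, rfl⟩
  have hWQ : Above W Q := by rw [hQ]; rfl
  have hQv : Above Q v := bel_of hWv hWQ
  have hna : ¬ (p : ℤ) ∣ ordv W (algebraMap K₁ M₁ (a : K₁)) := by
    intro h
    exact hn (((Pool.Agent.Helper40.RD.e_trf p M M₁ c1 W w hWw).1 (x : M)).1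
      ((hx.loc W).1 h))
  have hnQ : ¬ (p : ℤ) ∣ ordv Q (a : K₁) := by
    intro h
    exact hna (((Pool.Agent.Helper40.RD.e_trf p K₁ M₁ c2 W Q hWQ).1 (a : K₁)).2 h)
  have hQf : FreeP K Q := by
    by_contra hf
    exact hnQ ((hOMG p K K₁ ε hs.prim hs.gen hcopK).2.2.2.1 a ha Q hf)
  have hcalP : v ∈ B.calP := ⟨hvS, Q, hQv, hQf⟩
  have hWf : FreeP K W := (hs.vis v (val_p_one B hvS)).2.1 w Q W hwv hQv hWv
    hfree hQf
  refine ⟨v, ⟨hvS, W, hWv, hWf⟩, hwv, ?_⟩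
  intro h0
  exact hna ((((hLAB p k K M K₁ M₁ ε δ P hs L T B aτ n E haτ).1 a ha).2.1 v hcalP W hWv).2 h0)

theorem sel_act (hSLG : W_SLG) (hs : SitW p K M K₁ M₁ ε δ P) (L : IwasawaLog p k)
    (T : Set (K →+* k)) (a : K₁ˣ) (ha : OmType p K ε (a : K₁)) (x : Mˣ)
    (hx : Sel L (above T) P δ (algebraMap K₁ M₁ (a : K₁)) x) (i : ℕ) :
    Sel L (above T) P δ (algebraMap K₁ M₁ (a : K₁)) (act (δ ^ i) x) := by
  induction i with
  | zero =>
    have h1 : act (δ ^ 0) x = x := by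
      rw [pow_zero]; exact Units.ext rfl
    rw [h1]; exact hx
  | succ i ih =>
    have h1 : act (δ ^ (i + 1)) x = act δ (act (δ ^ i) x) := by
      rw [pow_succ']; exact Units.ext rfl
    rw [h1]
    exact (hSLG p k K M K₁ M₁ ε δ P hs L T ∅ a ha).1 _ ih

/-- The condition at a visible ramified prime. -/
theorem sel_loc (hNZY : W_NZY) (hSLG : W_SLG) (hs : SitW p K M K₁ M₁ ε δ P)
    (L : IwasawaLog p k) (T : Set (K →+* k)) (B : Base p K M K₁ M₁ ε δ P) (a : K₁ˣ)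
    (ha : OmType p K ε (a : K₁)) (x : Mˣ)
    (hx : Sel L (above T) P δ (algebraMap K₁ M₁ (a : K₁)) x)
    {v : HeightOneSpectrum (𝓞 K)} (hv : v ∈ B.Vis) (he : ordp p (B.Q v) a ≠ 0) :
    algebraMap (ZMod p) (AdjoinRoot P) (ordp p (B.Q v) a) * B.R v x =
      B.nv v x * algebraMap (ZMod p) (AdjoinRoot P) (B.th v (ast p K₁ M₁ a)) := by
  unfold Base.R Base.nv kf
  rw [Finset.mul_sum, Finset.sum_mul]
  refine Finset.sum_congr rfl fun i _ => ?_
  have h1 := tame_eq hNZY hs B hv a he (act (δ ^ i) x)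
    ((sel_act hSLG hs L T a ha x hx i).loc (B.W v))
  rw [← mul_assoc, ← map_mul, h1, map_mul]
  ring

/-- The value of the logarithm at `a*`. -/
theorem th_ast (hDEW : W_DEW) (hs : SitW p K M K₁ M₁ ε δ P) (B : Base p K M K₁ M₁ ε δ P)
    (a aτ : K₁ˣ) (ha : OmType p K ε (a : K₁)) (hfin : (B.labs a).Finite)
    (hloc : LocS p (up K₁ B.S) (a / aτ)) {v : HeightOneSpectrum (𝓞 K)} (hv : v ∈ B.Vis) :
    B.th v (ast p K₁ M₁ a) = B.sv aτ v + ∑ l ∈ zz B a, ordp p (B.Q l) a * B.pi v l := by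
  have h1 := (hDEW p K M K₁ M₁ ε δ P hs B a ha (zz B a)
    (fun v hv => ((mem_zz B hfin v).1 hv).1)
    (fun v hv hn => by
      by_contra h
      exact hn ((mem_zz B hfin v).2 ⟨hv, h⟩))).2.2 v hv
  have h2 : ∀ i, B.rw i a = B.rw i aτ := by
    intro i
    have h3 := B.rwL i _ hloc
    have h4 := (B.rwO i).1 (a / aτ) aτ
    rw [div_mul_cancel, h3, zero_add] at h4
    exact h4
  unfold ast
  rw [B.thh v hv, h1]
  unfold Base.sv
  simp only [h2]
  ring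

theorem sys_lam0 [Fact (Irreducible P)] {L : IwasawaLog p k} {T : Set (K →+* k)}
    (B : Base p K M K₁ M₁ ε δ P) {aτ : K₁ˣ} (n : ℕ) (E : TauN n B L T aτ) (t : Fin B.r → AdjoinRoot P)
    (j : Fin n) : (sysN B E).lam₀ t j = ∑ i, t i * E.h j (B.u i) := by
  show (LinearMap.pi (R := AdjoinRoot P) (fun j ↦
    ∑ i, (LinearMap.proj i).smulRight (E.h j (B.u i))) t j : AdjoinRoot P) = _
  rw [LinearMap.pi_apply, LinearMap.sum_apply]
  rfl

theorem sys_lam [Fact (Irreducible P)] {L : IwasawaLog p k} {T : Set (K →+* k)}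
    (B : Base p K M K₁ M₁ ε δ P) {aτ : K₁ˣ} (n : ℕ) (E : TauN n B L T aτ) (q : B.LP) (c : AdjoinRoot P)
    (j : Fin n) : (sysN B E).lam q c j = c * B.til (E.h j) (nrm M M₁ (B.z q.1.1)) := rfl

theorem sys_res [Fact (Irreducible P)] {L : IwasawaLog p k} {T : Set (K →+* k)}
    (B : Base p K M K₁ M₁ ε δ P) {aτ : K₁ˣ} (n : ℕ) (E : TauN n B L T aτ) (q : B.LP)
    (t : Fin B.r → AdjoinRoot P) :
    (sysN B E).res q t = ∑ i, t i * B.R q.1.1 (B.u i) := by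
  show ((∑ i, (LinearMap.proj i).smulRight (B.R q.1.1 (B.u i)) :
    (Fin B.r → AdjoinRoot P) →ₗ[AdjoinRoot P] AdjoinRoot P) t : AdjoinRoot P) = _
  rw [LinearMap.sum_apply]
  rfl

theorem w_sel : W_SEL := by
  have hFUN := Pool.Agent.Helper30.PP.p_fun
  have hNZY := w_nzy
  have hOMG := Pool.Agent.Helper22.PP.p_omg
  have hDEC := w_dec
  have hDEW := w_dew
  have hLAB := w_lab
  have hSLG := w_slg
  classical
  intro p _ k _ _ _ K M K₁ M₁ _ _ _ _ _ _ _ _ _ _ _ _ _ ε δ P _ hs L T B aτ n E haτ a ha hloc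
  rintro ⟨x, hx, hnx⟩
  obtain ⟨hfin, -, -, -⟩ := (hLAB p k K M K₁ M₁ ε δ P hs L T B aτ n E haτ).1 a ha
  -- P_DEC applies
  obtain ⟨d1, d2⟩ := hDEC p K M K₁ M₁ ε δ P hs B x hx.pol
    ((zz B a).filter (fun v ↦ v ∈ B.Vis)) (fun v hv => (Finset.mem_filter.1 hv).2) (by
      intro w hw h
      by_contra hn
      obtain ⟨v, hv, hwv, he⟩ := sel_supp hOMG hLAB hs L T B aτ n E haτ a ha x hx w hw hn
      refine h v (Finset.mem_filter.2 ⟨(mem_zz B hfin v).2 ⟨?_, he⟩, hv⟩) hwv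
      obtain ⟨hvS, W, hW, hWf⟩ := hv
      have := hs.st1
      have := hs.st2
      have := hs.gM
      have := hs.gK
      have := hs.gMK
      obtain ⟨Q, hQ⟩ : ∃ Q, Q = bel K₁ W := ⟨_, rfl⟩
      have hWQ : Above W Q := by rw [hQ]; rfl
      have h1 := ((hs.vis v (val_p_one B hvS)).1 W hW hWf).2.2 Q hWQ
      exact ⟨hvS, Q, h1.2.2, h1.1⟩)
  refine ⟨fun i => B.rho i x, cc B a x, ⟨?_, ?_, ?_⟩, ?_⟩
  · -- supp
    intro q hq
    by_contra h
    exact hq (if_neg h)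
  · -- lam
    funext j
    have h1 : E.h j x = 0 := E.hS j x hx.pol
      (fun W hW => ((hSLG p k K M K₁ M₁ ε δ P hs L T B.S a ha).2 aτ hloc W hW _).1 (hx.loc W))
      hx.sig
    have h2 := d1 (E.h j) (E.hP j)
    rw [h1] at h2
    have h3 := sum_cc B hfin x (fun v => B.til (E.h j) (nrm M M₁ (B.z v)))
    show ((sysN B E).lam₀ (fun i => B.rho i x) + ∑ q ∈ B.lab a, (sysN B E).lam q (cc B a x q)) j = 0
    rw [Pi.add_apply, Finset.sum_apply, sys_lam0]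
    simp only [sys_lam]
    rw [h3]
    exact h2.symm
  · -- loc
    intro q hq hsp
    have hv : q.1.1 ∈ B.Vis := hsp
    have he : ordp p (B.Q q.1.1) a = (q.1.2 : ZMod p) := (mem_lab B hfin q).1 hq
    have he0 : (q.1.2 : ZMod p) ≠ 0 := Units.ne_zero _
    have h1 := sel_loc hNZY hSLG hs L T B a ha x hx hv (by rw [he]; exact he0)
    rw [th_ast hDEW hs B a aτ ha hfin hloc hv, he, ← sum_e B hfin (fun l => B.pi q.1.1 l)] at h1
    have hth := B.thh q.1.1 hv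
    have h2 := d1 (B.R q.1.1) ((hFUN p K M (finrank K M) δ P finrank_pos hs.copm
      (by rw [← hs.ord]; exact pow_orderOf_eq_one δ) hs.irr hs.dvdP).2 _
      (fun y z => by rw [map_mul, hth])).1
    have h3 := sum_cc B hfin x (fun v => B.A q.1.1 v)
    have h4 : cc B a x q = B.nv q.1.1 x := if_pos ⟨hq, hv⟩
    have h5 : (sysN B E).R (B.lab a) (fun i => B.rho i x) (cc B a x) q =
        B.R q.1.1 x - B.nv q.1.1 x * algebraMap (ZMod p) (AdjoinRoot P) ((q.1.2 : ZMod p)⁻¹ *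
          (B.sv aτ q.1.1 + ∑ q' ∈ B.lab a, (q'.1.2 : ZMod p) * B.pi q.1.1 q'.1.1)) := by
      unfold Pool.Agent.Helper17.PP.Sys.R
      rw [sys_res, sum_er (B.lab a) hq, sum_er (B.lab a) hq]
      show _ + (∑ q' ∈ B.lab a, cc B a x q' * B.A q.1.1 q'.1.1 -
          cc B a x q * B.A q.1.1 q.1.1) +
        cc B a x q * ((B.A q.1.1 q.1.1 - algebraMap (ZMod p) (AdjoinRoot P)
          ((q.1.2 : ZMod p)⁻¹ * B.sv aτ q.1.1 + B.pi q.1.1 q.1.1)) +
          (∑ q' ∈ B.lab a, algebraMap (ZMod p) (AdjoinRoot P)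
            (- ((q'.1.2 : ZMod p) * (q.1.2 : ZMod p)⁻¹ * B.pi q.1.1 q'.1.1)) -
            algebraMap (ZMod p) (AdjoinRoot P)
            (- ((q.1.2 : ZMod p) * (q.1.2 : ZMod p)⁻¹ * B.pi q.1.1 q.1.1)))) = _
      rw [h3, h2, h4, ← map_sum, mul_inv_cancel₀ he0]
      have h6 : ∑ q' ∈ B.lab a,
          (- ((q'.1.2 : ZMod p) * (q.1.2 : ZMod p)⁻¹ * B.pi q.1.1 q'.1.1)) =
          - ((q.1.2 : ZMod p)⁻¹ * ∑ q' ∈ B.lab a, (q'.1.2 : ZMod p) * B.pi q.1.1 q'.1.1) := by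
        rw [Finset.mul_sum, ← Finset.sum_neg_distrib]
        exact Finset.sum_congr rfl fun q' _ => by ring
      rw [h6]
      simp only [map_mul, map_add, map_neg, map_one, Base.A]
      ring
    rw [h5, map_mul]
    have h7 : algebraMap (ZMod p) (AdjoinRoot P) (q.1.2 : ZMod p) *
        algebraMap (ZMod p) (AdjoinRoot P) ((q.1.2 : ZMod p)⁻¹) = 1 := by
      rw [← map_mul, mul_inv_cancel₀ he0, map_one]
    linear_combination (algebraMap (ZMod p) (AdjoinRoot P) ((q.1.2 : ZMod p)⁻¹)) * h1 -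
      (B.R q.1.1 x) * h7
  · -- nonzero
    rintro ⟨h1, h2⟩
    refine hnx (d2 (fun i => congrFun h1 i) ?_)
    intro v hv
    obtain ⟨hv1, hv2⟩ := Finset.mem_filter.1 hv
    unfold zz at hv1
    obtain ⟨q, hq, rfl⟩ := Finset.mem_image.1 hv1
    have h3 := congrFun h2 q
    unfold cc at h3
    rw [if_pos ⟨hq, hv2⟩] at h3
    exact h3

end main

end Pool.Agent.Helper42.PP1
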