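import Pool.Agent.Helper42.PP1.Goals3
import Pool.Agent.Helper35.PP.BBLU
import Pool.Agent.Helper14.PP.BPRC
import Pool.Agent.Helper94.PP.BIDN
import Pool.Agent.Helper12.PP.BKAP

/-!
# Project PP, the case `m = 1`: W_BLU
-/

set_option autoImplicit false
set_option linter.unusedSectionVars false

namespace Pool.Agent.Helper42.PP1

open NumberField Polynomial Module IsDedekindDomain
open Pool.Agent.Helper51.RP Pool.Agent.Helper42.RD Pool.Agent.Helper42.PP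
open Pool.Agent.Helper76.PP
open Pool.Agent.Helper51.SigLeo (IwasawaLog)
open Pool.Agent.Helper51.PP (RC Chs)
open Pool.Agent.Helper17.PP (Sys)
open Pool.Agent.Helper35.PP

theorem w_blu (h1 : W_UPV) : W_BLU := by
  have h2 := Pool.Agent.Helper14.PP.b_prc
  have h3 := Pool.Agent.Helper94.PP.b_idn
  intro p hp k _ _ K M K₁ M₁ _ _ _ _ _ _ _ _ _ _ _ _ _ ε δ P _ hs hnt B L T aτ n E tr ψ₁ htr hψ
  have := hs.st1
  have := hs.st2
  have := hs.gM
  have := hs.gK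
  have := hs.gMK
  have hψ0 := Pool.Agent.Helper12.PP.kap_psi p ψ₁ hψ
  obtain ⟨hm0, hidn, hidn2⟩ := h3 p K M₁ B.S B.abp
  have hup := h1 p K M K₁ M₁ ε δ P hs hnt B tr htr
  refine ⟨fun q y c t e ↦ chI (modu p M₁ B.S *
    q.1.1.asIdeal.map (algebraMap (𝓞 K) (𝓞 M₁))) ψ₁
    (psU B tr q.1.1 (t * y) (-((e : ZMod p) * (q.1.2 : ZMod p)⁻¹ * tr (y * c)))), ?_, ?_⟩
  · intro y c t e ht
    refine
      { m0 := hm0
        inj := ?_
        nW := ?_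
        nne := ?_
        cop₀ := ?_
        cop := ?_
        rc := ?_
        nt := ?_ }
    · rintro q ⟨hq, hqe⟩ q' ⟨hq', hqe'⟩ h
      have hq0 : q.1.1 ∈ B.Vis := hq
      have hq0' : q'.1.1 ∈ B.Vis := hq'
      have a1 : Above (B.W q.1.1) q.1.1 := (B.Wa _ hq0).1
      have a2 : Above (B.W q'.1.1) q'.1.1 := (B.Wa _ hq0').1
      have h' : B.W q.1.1 = B.W q'.1.1 := h
      have hv : q.1.1 = q'.1.1 := by
        apply HeightOneSpectrum.ext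
        have a3 : (B.W q.1.1).asIdeal.comap (algebraMap (𝓞 K) (𝓞 M₁)) = q.1.1.asIdeal := a1
        have a4 : (B.W q'.1.1).asIdeal.comap (algebraMap (𝓞 K) (𝓞 M₁)) = q'.1.1.asIdeal := a2
        rw [← a3, ← a4, h']
      exact Subtype.ext (Prod.ext hv (hqe.trans hqe'.symm))
    · rintro q ⟨hq, -⟩
      have hq0 : q.1.1 ∈ B.Vis := hq
      obtain ⟨hVIS, -, -⟩ := hs.vis q.1.1 (val_p_eq_one p B.abp hq0.1)
      obtain ⟨hWv, -, -, hWf⟩ := B.Wa _ hq0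
      exact (hVIS _ hWv hWf).1
    · rintro q ⟨hq, -⟩
      obtain ⟨g1, g2, g3, -, -⟩ := hidn q.1.1
      exact ⟨g1, g2, le_of_eq g3⟩
    · rintro q ⟨hq, -⟩
      have hq0 : q.1.1 ∈ B.Vis := hq
      exact (hidn q.1.1).2.2.2.1 hq0.1
    · rintro q ⟨hq, -⟩ q' ⟨hq', -⟩ hne
      exact (hidn q.1.1).2.2.2.2 q'.1.1 (fun h => hne h.symm)
    · rintro q ⟨hq, -⟩
      have hq0 : q.1.1 ∈ B.Vis := hq
      exact h2 p M₁ _ _ (hup q.1.1 hq0 _ _).1 ψ₁
    · rintro q ⟨hq, hyq⟩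
      have hq0 : q.1.1 ∈ B.Vis := hq
      obtain ⟨α, hα1, hα2, hα3⟩ := (hup q.1.1 hq0 (t * y q)
        (-((e : ZMod p) * (q.1.2 : ZMod p)⁻¹ * tr (y q * c q)))).2.2 (mul_ne_zero ht hyq)
      refine ⟨α, hα1, hα2, ?_⟩
      have hα0 : Ideal.span {α} ≠ ⊥ := by
        intro h
        rw [h, bot_sup_eq] at hα2
        exact (hidn q.1.1).2.1 hα2
      have hcop : Ideal.span {α} ⊔ modu p M₁ B.S *
          q.1.1.asIdeal.map (algebraMap (𝓞 K) (𝓞 M₁)) = ⊤ :=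
        sup_mul_top (span_sup_top hα1) hα2
      show chI _ ψ₁ _ (Ideal.span {α}) ≠ 1
      unfold chI
      rw [if_pos ⟨hα0, hcop⟩]
      intro h
      exact hα3 (hψ0 _ h)
  · intro y c t q q' hq hq' hne
    have hq0 : q.1.1 ∈ B.Vis := hq
    have hq0' : q'.1.1 ∈ B.Vis := hq'
    have hvv : q.1.1 ≠ q'.1.1 := hne
    have hWv : Above (B.W q.1.1) q.1.1 := (B.Wa _ hq0).1
    have hcop : (B.W q.1.1).asIdeal ⊔ modu p M₁ B.S *
          q'.1.1.asIdeal.map (algebraMap (𝓞 K) (𝓞 M₁)) = ⊤ := by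
      have g1 := hidn2 q.1.1 {q'.1.1} hq0.1 (by
        rw [Finset.mem_singleton]
        exact hvv) _ hWv
      unfold mD at g1
      rw [Finset.prod_singleton] at g1
      exact g1
    show chI _ ψ₁ _ (B.W q.1.1).asIdeal = _
    unfold chI
    rw [if_pos ⟨(B.W q.1.1).ne_bot, hcop⟩, (hup q'.1.1 hq0' _ _).2.1 q.1.1 hq0]
    show ψ₁ _ = ψ₁ (tr (y * (t * B.A q'.1.1 q.1.1 + c * algebraMap (ZMod p) (AdjoinRoot P)
      (-((q.1.2 : ZMod p) * (q'.1.2 : ZMod p)⁻¹ * B.pi q'.1.1 q.1.1)))))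
    congr 1
    have g2 : y * (t * B.A q'.1.1 q.1.1 + c * algebraMap (ZMod p) (AdjoinRoot P)
      (-((q.1.2 : ZMod p) * (q'.1.2 : ZMod p)⁻¹ * B.pi q'.1.1 q.1.1))) =
        t * y * B.A q'.1.1 q.1.1 +
          (-((q.1.2 : ZMod p) * (q'.1.2 : ZMod p)⁻¹ * B.pi q'.1.1 q.1.1)) • (y * c) := by
      rw [Algebra.smul_def]
      ring
    rw [g2, map_add, map_smul, smul_eq_mul]
    ring

end Pool.Agent.Helper42.PP1
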