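import Pool.Agent.Helper42.PP1.SMW
import Pool.Agent.Helper42.RD.EXA

/-!
# Project PP: `B_SM` from `W_SM`
-/

set_option autoImplicit false

namespace Pool.Agent.Helper42.PP1

open NumberField Polynomial Module IsDedekindDomain Pool.Agent.Helper51.SigLeo
open Pool.Agent.Helper51.RP Pool.Agent.Helper42.RD Pool.Agent.Helper42.PP Pool.Agent.Helper76.PP
open Pool.Agent.Helper94.PP (NTP A1_PRI A1_FIX)

/-- The situation of the theorem is a `SitW`. -/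
theorem sitW_tower (p : ℕ) [Fact p.Prime] (k : Type) [NormedField k] [NormedAlgebra ℚ_[p] k]
    (K M K₁ M₁ : Type) [Field K] [NumberField K] [Field M] [NumberField M] [Field K₁]
    [NumberField K₁] [Field M₁] [NumberField M₁] [Algebra K M] [Algebra K K₁] [Algebra K M₁]
    [Algebra M M₁] [Algebra K₁ M₁] [h1 : IsScalarTower K M M₁] [h2 : IsScalarTower K K₁ M₁]
    [h3 : IsGalois K M] [h4 : IsGalois K K₁] [h5 : IsGalois K M₁] (ε : K₁)
    (hT : Tower p K M K₁ M₁ ε) (m : ℕ) (δ : M ≃ₐ[K] M) (ζ : k) (Φ : ℤ_[p][X]) (P : (ZMod p)[X])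
    (hP : PhiData p m ζ Φ P) (hδ : orderOf δ = m) (hm : finrank K M = m) :
    SitW p K M K₁ M₁ ε δ P where
  st1 := h1
  st2 := h2
  gM := h3
  gK := h4
  gMK := h5
  prim := hT.prim
  gen := hT.gen
  lin := hT.lin
  ord := hδ.trans hm.symm
  irr := hP.irr
  dvdP := by rw [hm]; exact hP.dvdP
  copm := hT.cop
  c1 := (Pool.Agent.Helper14.RD.e_tow p K M K₁ M₁ ε hT).2.2.1
  c2 := (Pool.Agent.Helper14.RD.e_tow p K M K₁ M₁ ε hT).2.2.2.1
  nsp := Pool.Agent.Helper11.RP.s_nsp p k K M m δ ζ Φ P hP hδ hm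
  vis := Pool.Agent.Helper79.PP.p_vis p K M K₁ M₁ ε hT

/-- A `Tau` is a `TauN`. -/
def toTauN {p : ℕ} [Fact p.Prime] {k : Type} [NormedField k] {K M K₁ M₁ : Type} [Field K]
    [NumberField K] [Field M] [NumberField M] [Field K₁] [NumberField K₁] [Field M₁]
    [NumberField M₁] [Algebra K M] [Algebra K K₁] [Algebra K M₁] [Algebra M M₁] [Algebra K₁ M₁]
    {ε : K₁} {δ : M ≃ₐ[K] M} {P : (ZMod p)[X]} {B : Base p K M K₁ M₁ ε δ P} {L : IwasawaLog p k}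
    {T : Set (K →+* k)} {aτ : K₁ˣ} (E : Tau B L T aτ) : TauN B.r B L T aτ where
  h := E.h
  hP := E.hP
  hL := E.hL
  hS := E.hS
  hI := E.hI

theorem b_sm (hPRI : A1_PRI) : B_SM := by
  intro p _ k _ _ K M K₁ M₁ _ _ _ _ _ _ _ _ _ _ _ _ _ _ _ _ _ _ _ ε hT m δ ζ Φ P _ hP hδ hm
    B L T aτ E tr ψ₁ htr hψ
  have : IsTotallyComplex M₁ := totallyComplex_of (K := K)
  exact w_sm hPRI p k K M K₁ M₁ ε δ P (sitW_tower p k K M K₁ M₁ ε hT m δ ζ Φ P hP hδ hm) B L T aτ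
    B.r (toTauN E) tr ψ₁ htr hψ

end Pool.Agent.Helper42.PP1
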