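import Pool.Agent.Helper42.PP1.DEC
import Pool.Agent.Helper58.PP.PDEW
import Pool.Agent.Helper22.PP.POMG
import Pool.Agent.Helper16.PP.PUPR

/-!
# Project PP, the case `m = 1`: W_DEW
-/

set_option autoImplicit false
set_option linter.unusedSectionVars false

namespace Pool.Agent.Helper42.PP1

open NumberField Polynomial Module IsDedekindDomain Pool.Agent.Helper51.SigLeo
open Pool.Agent.Helper51.RP Pool.Agent.Helper42.RD Pool.Agent.Helper42.PP
open _root_.Pool.Agent.Helper90.RP.Dual (finite_ordv)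
open Pool.Agent.Helper58.PP.Dew

theorem w_dew : W_DEW := by
  have h1 := Pool.Agent.Helper22.PP.p_omg
  have h2 := w_nzy
  have h3 := Pool.Agent.Helper16.PP.p_upr
  classical
  intro p hpf K M K₁ M₁ _ _ _ _ _ _ _ _ _ _ _ _ _ ε δ P hs B a ha Z hZ hZ0
  have hp : p.Prime := Fact.out
  have hgK := hs.gK
  have hε := hs.prim
  have hgen := hs.gen
  have hcop := (_root_.Pool.Agent.Helper90.LE.l_cyc p K K₁ ε ⟨hε, hgK, hgen⟩).2.1
  obtain ⟨hO1, hO2, hO3, hO4, hO5⟩ := h1 p K K₁ ε hε hgen hcop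
  obtain ⟨-, hN2, -, -⟩ := h2 p K M K₁ M₁ ε δ P hs B
  set g₀ : ZMod p := (finrank K K₁ : ZMod p) with hg₀
  have hg₀0 : g₀ ≠ 0 := by
    rw [hg₀, Ne, ZMod.natCast_eq_zero_iff]
    intro h
    have h4 := Nat.Coprime.eq_one_of_dvd hcop.symm h
    exact hp.one_lt.ne' h4
  choose ys hys1 hys2 _ using hO3
  obtain ⟨kk, hkk⟩ : ∃ kk : HeightOneSpectrum (𝓞 K) → ℕ, ∀ v,
      (kk v : ZMod p) = g₀ * ordp p (B.Q v) a :=
    ⟨fun v => (g₀ * ordp p (B.Q v) a).val, fun v => by rw [ZMod.natCast_val, ZMod.cast_id]⟩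
  obtain ⟨b, hb⟩ : ∃ b : K₁ˣ, b = a * (∏ v ∈ Z, (ys (B.y v)) ^ (kk v))⁻¹ := ⟨_, rfl⟩
  have hprO := om_prod hO5 ha Z (fun v => (ys (B.y v)) ^ (kk v))
    (fun v _ => om_pow hO5 (hys1 (B.y v)) _)
  have hbO : OmType p K ε (b : K₁) := by
    rw [hb]
    exact (hO5 _ _ ha (hO5 _ _ hprO hprO).2).1
  have hgb : ∀ g : K₁ˣ → ZMod p, IsOm p K ε g →
      g b = g a - ∑ v ∈ Z, g₀ * ordp p (B.Q v) a * g (B.y v) := by
    intro g hg
    rw [hb, hg.1, hom_inv hg.1, hom_prod hg.1, sub_eq_add_neg]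
    congr 2
    apply Finset.sum_congr rfl
    intro v _
    rw [hom_pow hg.1, nsmul_eq_mul, hkk, hys2 _ g hg]
  have hb0 : ∀ v ∈ B.calP, ordp p (B.Q v) b = 0 := by
    intro v hv
    obtain ⟨hW, hW2⟩ := hO1 (ordp p (B.Q v)) (ordp_hom _)
    have e1 := hgb _ hW
    rw [hW2 b hbO, hW2 a ha] at e1
    have e2 : ∑ v' ∈ Z, g₀ * ordp p (B.Q v') a * wf p K ε (ordp p (B.Q v)) (B.y v') =
        g₀ * ordp p (B.Q v) a := by
      by_cases hvZ : v ∈ Z
      · rw [Finset.sum_eq_single_of_mem v hvZ]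
        · rw [(hN2 v hv).1, mul_one]
        · intro v' hv' hne
          rw [(hN2 v hv).2 v' (hZ v' hv') hne.symm, mul_zero]
      · rw [hZ0 v hv hvZ, mul_zero]
        apply Finset.sum_eq_zero
        intro v' hv'
        rw [(hN2 v hv).2 v' (hZ v' hv') (fun h => hvZ (h ▸ hv')), mul_zero]
    rw [e2, sub_self] at e1
    exact (mul_eq_zero.1 e1).resolve_left hg₀0
  obtain ⟨hc1, hc2⟩ := core h1 h3 B hε hgen hcop b hbO hb0
  have hfirst : ∀ g : K₁ˣ → ZMod p, IsOm p K ε g →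
      g a = ∑ i, B.rw i a * g (B.uw i) +
        ∑ v ∈ Z, g₀ * ordp p (B.Q v) a * B.tilw g (B.y v) := by
    intro g hg
    have e1 := hc1 g hg
    have e2 : ∀ i, B.rw i b = B.rw i a - ∑ v ∈ Z, g₀ * ordp p (B.Q v) a * B.rw i (B.y v) :=
      fun i => hgb _ (B.rwO i)
    rw [hgb g hg] at e1
    simp only [e2] at e1
    unfold Base.tilw
    have e3 : g a = ∑ i, (B.rw i a - ∑ v ∈ Z, g₀ * ordp p (B.Q v) a * B.rw i (B.y v)) *
        g (B.uw i) + ∑ v ∈ Z, g₀ * ordp p (B.Q v) a * g (B.y v) := by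
      rw [← e1]
      ring
    rw [e3]
    simp only [sub_mul, mul_sub, Finset.sum_sub_distrib, Finset.sum_mul, Finset.mul_sum]
    rw [Finset.sum_comm (s := Finset.univ) (t := Z)]
    have e4 : ∀ v i, g₀ * ordp p (B.Q v) a * B.rw i (B.y v) * g (B.uw i) =
        g₀ * ordp p (B.Q v) a * (g (B.uw i) * B.rw i (B.y v)) := fun v i => by ring
    simp only [e4]
    ring
  refine ⟨hfirst, ?_, ?_⟩
  · intro hr h0
    obtain ⟨-, h5⟩ := core h1 h3 B hε hgen hcop a ha h0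
    exact h5 hr
  · intro v hv
    have hthh : Hom (fun x => B.th v (inc K₁ M₁ x)) := by
      intro x y
      show B.th v (inc K₁ M₁ (x * y)) = _
      rw [map_mul]
      exact B.thh v hv _ _
    obtain ⟨hW, hW2⟩ := hO1 _ hthh
    have e1 := hfirst (B.G v) hW
    have e2 : ∀ x : K₁ˣ, OmType p K ε (x : K₁) → B.G v x = g₀ * B.th v (inc K₁ M₁ x) :=
      fun x hx => hW2 x hx
    rw [e2 a ha] at e1
    have e3 : g₀ * B.th v (inc K₁ M₁ a) = g₀ * (∑ i, B.rw i a * B.th v (inc K₁ M₁ (B.uw i)) +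
        ∑ l ∈ Z, ordp p (B.Q l) a * B.pi v l) := by
      rw [e1, mul_add, Finset.mul_sum, Finset.mul_sum]
      congr 1
      · apply Finset.sum_congr rfl
        intro i _
        rw [e2 _ (B.uwO i)]
        ring
      · apply Finset.sum_congr rfl
        intro l _
        unfold Base.pi
        ring
    exact mul_left_cancel₀ hg₀0 e3

end Pool.Agent.Helper42.PP1
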