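import Pool.Agent.Helper42.PP1.Defs

/-!
# Project PP, the case `m = 1`: the statements of Goals2 for `SitW`

The statements are those of `Helper42/PP/Goals2`, with `SitW` in place of `Sit`, `TauN n` in place of `Tau`.
-/

set_option autoImplicit false

namespace Pool.Agent.Helper42.PP1

open NumberField Polynomial Module IsDedekindDomain Pool.Agent.Helper51.SigLeo
open Pool.Agent.Helper51.RP Pool.Agent.Helper42.RD Pool.Agent.Helper42.PP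

/-- **W_NZY**: `P_NZY` for `SitW`, with the same proof. -/
def W_NZY : Prop :=
  ∀ (p : ℕ) [Fact p.Prime]
    (K M K₁ M₁ : Type) [Field K] [NumberField K] [Field M] [NumberField M] [Field K₁]
    [NumberField K₁] [Field M₁] [NumberField M₁] [Algebra K M] [Algebra K K₁] [Algebra K M₁]
    [Algebra M M₁] [Algebra K₁ M₁] (ε : K₁) (δ : M ≃ₐ[K] M) (P : (ZMod p)[X]),
    SitW p K M K₁ M₁ ε δ P →
  ∀ (B : Base p K M K₁ M₁ ε δ P),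
    (∀ v ∈ B.Vis, (∀ w ∉ up M B.S, (w = B.w v → ordv w (nrm M M₁ (B.z v) : M) = 1) ∧
      (w ≠ B.w v → ordv w (nrm M M₁ (B.z v) : M) = 0)) ∧
      (B.nv v (nrm M M₁ (B.z v)) = 1) ∧
      (∀ v' ∈ B.Vis, v ≠ v' → B.nv v (nrm M M₁ (B.z v')) = 0)) ∧
    (∀ v ∈ B.calP, wf p K ε (ordp p (B.Q v)) (B.y v) = 1 ∧
      ∀ v' ∈ B.calP, v ≠ v' → wf p K ε (ordp p (B.Q v)) (B.y v') = 0) ∧
    (∀ v ∈ B.Vis, ∀ w : HeightOneSpectrum (𝓞 M), Above w v → ∀ x : Mˣ, Pw p (pol P δ x) →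
      B.nv v x = 0 → (p : ℤ) ∣ ordv w (x : M)) ∧
    ∀ v ∈ B.Vis, (∀ x : M, ordv (B.W v) (algebraMap M M₁ x) = ordv (B.w v) x) ∧
      ∀ x : K₁, ordv (B.W v) (algebraMap K₁ M₁ x) = ordv (B.Q v) x

/-- **W_DEC**: `P_DEC` for `SitW`, with the same proof. -/
def W_DEC : Prop :=
  ∀ (p : ℕ) [Fact p.Prime]
    (K M K₁ M₁ : Type) [Field K] [NumberField K] [Field M] [NumberField M] [Field K₁]
    [NumberField K₁] [Field M₁] [NumberField M₁] [Algebra K M] [Algebra K K₁] [Algebra K M₁]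
    [Algebra M M₁] [Algebra K₁ M₁] (ε : K₁) (δ : M ≃ₐ[K] M) (P : (ZMod p)[X]),
    SitW p K M K₁ M₁ ε δ P →
  ∀ (B : Base p K M K₁ M₁ ε δ P) (x : Mˣ), Pw p (pol P δ x) →
  ∀ Z : Finset (HeightOneSpectrum (𝓞 K)), (∀ v ∈ Z, v ∈ B.Vis) →
    (∀ w ∉ up M B.S, (∀ v ∈ Z, ¬ Above w v) → (p : ℤ) ∣ ordv w (x : M)) →
  (∀ F : Mˣ → AdjoinRoot P, IsP δ P F →
    F x = ∑ i, B.rho i x * F (B.u i) + ∑ v ∈ Z, B.nv v x * B.til F (nrm M M₁ (B.z v))) ∧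
  ((∀ i, B.rho i x = 0) → (∀ v ∈ Z, B.nv v x = 0) → Pw p x)

/-- **W_DEW**: `P_DEW` for `SitW`, with the same proof. -/
def W_DEW : Prop :=
  ∀ (p : ℕ) [Fact p.Prime]
    (K M K₁ M₁ : Type) [Field K] [NumberField K] [Field M] [NumberField M] [Field K₁]
    [NumberField K₁] [Field M₁] [NumberField M₁] [Algebra K M] [Algebra K K₁] [Algebra K M₁]
    [Algebra M M₁] [Algebra K₁ M₁] (ε : K₁) (δ : M ≃ₐ[K] M) (P : (ZMod p)[X]),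
    SitW p K M K₁ M₁ ε δ P →
  ∀ (B : Base p K M K₁ M₁ ε δ P) (a : K₁ˣ), OmType p K ε (a : K₁) →
  ∀ Z : Finset (HeightOneSpectrum (𝓞 K)), (∀ v ∈ Z, v ∈ B.calP) →
    (∀ v ∈ B.calP, v ∉ Z → ordp p (B.Q v) a = 0) →
  (∀ g : K₁ˣ → ZMod p, IsOm p K ε g →
    g a = ∑ i, B.rw i a * g (B.uw i) +
      ∑ v ∈ Z, (finrank K K₁ : ZMod p) * ordp p (B.Q v) a * B.tilw g (B.y v)) ∧
  ((∀ i, B.rw i a = 0) → (∀ v ∈ B.calP, ordp p (B.Q v) a = 0) → Pw p a) ∧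
  ∀ v ∈ B.Vis, B.th v (inc K₁ M₁ a) = ∑ i, B.rw i a * B.th v (inc K₁ M₁ (B.uw i)) +
    ∑ l ∈ Z, ordp p (B.Q l) a * B.pi v l

/-- **W_LAB**: `P_LAB` for `SitW`, with the same proof. -/
def W_LAB : Prop :=
  ∀ (p : ℕ) [Fact p.Prime] (k : Type) [NormedField k] [NormedAlgebra ℚ_[p] k]
    (K M K₁ M₁ : Type) [Field K] [NumberField K] [Field M] [NumberField M] [Field K₁]
    [NumberField K₁] [Field M₁] [NumberField M₁] [Algebra K M] [Algebra K K₁] [Algebra K M₁]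
    [Algebra M M₁] [Algebra K₁ M₁] (ε : K₁) (δ : M ≃ₐ[K] M) (P : (ZMod p)[X])
    [Fact (Irreducible P)], SitW p K M K₁ M₁ ε δ P →
  ∀ (L : IwasawaLog p k) (T : Set (K →+* k)) (B : Base p K M K₁ M₁ ε δ P) (aτ : K₁ˣ)
    (n : ℕ) (E : TauN n B L T aτ), OmType p K ε (aτ : K₁) →
  (∀ a : K₁ˣ, OmType p K ε (a : K₁) → (B.labs a).Finite ∧
    (∀ v ∈ B.calP, ∀ W : HeightOneSpectrum (𝓞 M₁), Above W v →
      ((p : ℤ) ∣ ordv W (algebraMap K₁ M₁ (a : K₁)) ↔ ordp p (B.Q v) a = 0)) ∧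
    (∀ v ∉ B.S, v ∉ B.calP → ∀ W : HeightOneSpectrum (𝓞 M₁), Above W v →
      (p : ℤ) ∣ ordv W (algebraMap K₁ M₁ (a : K₁))) ∧
    (LocS p (up K₁ B.S) (a / aτ) → (sysN B E).Fam (B.lab a))) ∧
  (∀ b : Finset B.LP, (sysN B E).Fam b → ∃ a : K₁ˣ, OmType p K ε (a : K₁) ∧
    LocS p (up K₁ B.S) (a / aτ) ∧ B.lab a = b) ∧
  (∀ a a' : K₁ˣ, OmType p K ε (a : K₁) → OmType p K ε (a' : K₁) →
    LocS p (up K₁ B.S) (a / aτ) → LocS p (up K₁ B.S) (a' / aτ) → B.lab a = B.lab a' →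
    Pw p (a / a')) ∧
  ∀ γ : Fin B.t → ZMod p, ∃ b : Finset B.LP, Set.InjOn (sysN B E).bs (b : Set B.LP) ∧
    ∑ q ∈ b, (sysN B E).cls q = γ

/-- **W_SLG**: `P_SLG` for `SitW`, with the same proof. -/
def W_SLG : Prop :=
  ∀ (p : ℕ) [Fact p.Prime] (k : Type) [NormedField k] [NormedAlgebra ℚ_[p] k]
    [IsUltrametricDist k] (K M K₁ M₁ : Type) [Field K] [NumberField K] [Field M] [NumberField M]
    [Field K₁] [NumberField K₁] [Field M₁] [NumberField M₁] [Algebra K M] [Algebra K K₁]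
    [Algebra K M₁] [Algebra M M₁] [Algebra K₁ M₁] (ε : K₁) (δ : M ≃ₐ[K] M) (P : (ZMod p)[X]),
    SitW p K M K₁ M₁ ε δ P →
  ∀ (L : IwasawaLog p k) (T : Set (K →+* k)) (S : Finset (HeightOneSpectrum (𝓞 K))) (a : K₁ˣ),
    OmType p K ε (a : K₁) →
  (∀ x : Mˣ, Sel L (above T) P δ (algebraMap K₁ M₁ (a : K₁)) x →
    Sel L (above T) P δ (algebraMap K₁ M₁ (a : K₁)) (act δ x)) ∧
  ∀ aτ : K₁ˣ, LocS p (up K₁ S) (a / aτ) → ∀ W ∈ up M₁ S, ∀ x : M₁,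
    (LocAt p W (algebraMap K₁ M₁ (a : K₁)) x ↔ LocAt p W (algebraMap K₁ M₁ (aτ : K₁)) x)

/-- **W_SEL**: `P_SEL` for `SitW`, with the same proof. -/
def W_SEL : Prop :=
  ∀ (p : ℕ) [Fact p.Prime] (k : Type) [NormedField k] [NormedAlgebra ℚ_[p] k]
    [IsUltrametricDist k] (K M K₁ M₁ : Type) [Field K] [NumberField K] [Field M] [NumberField M]
    [Field K₁] [NumberField K₁] [Field M₁] [NumberField M₁] [Algebra K M] [Algebra K K₁]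
    [Algebra K M₁] [Algebra M M₁] [Algebra K₁ M₁] (ε : K₁) (δ : M ≃ₐ[K] M) (P : (ZMod p)[X])
    [Fact (Irreducible P)], SitW p K M K₁ M₁ ε δ P →
  ∀ (L : IwasawaLog p k) (T : Set (K →+* k)) (B : Base p K M K₁ M₁ ε δ P) (aτ : K₁ˣ)
    (n : ℕ) (E : TauN n B L T aτ), OmType p K ε (aτ : K₁) →
  ∀ a : K₁ˣ, OmType p K ε (a : K₁) → LocS p (up K₁ B.S) (a / aτ) →
    (∃ x : Mˣ, Sel L (above T) P δ (algebraMap K₁ M₁ (a : K₁)) x ∧ ¬ Pw p x) →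
  (sysN B E).Bad (B.lab a)

end Pool.Agent.Helper42.PP1
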