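import Pool.Agent.Helper42.PP1.LOG
import Pool.Agent.Helper42.PP1.NRM
import Pool.Agent.Helper74.PP.BKUE

/-!
# Project PP, the case `m = 1`: W_KUE
-/

set_option autoImplicit false
set_option linter.unusedSectionVars false

namespace Pool.Agent.Helper42.PP1

open NumberField Polynomial Module IsDedekindDomain
open Pool.Agent.Helper51.RP Pool.Agent.Helper42.RD Pool.Agent.Helper42.PP Pool.Agent.Helper76.PP
open Pool.Agent.Helper40.RS (bel gw bel_smul lies conj_of_bel free_gw absNorm_free val_smul)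
open Pool.Agent.Helper13.RD (eq_gw ram_free eq_of_val)
open Pool.Agent.Helper40.RD (bel_of_above ordW)
open Pool.Agent.Helper30.PP (pol_eq act_mul hom_pow p_nsmul)
open Pool.Agent.Helper74.PP

theorem w_kue : W_KUE := by
  have h1 := Pool.Agent.Helper30.PP.p_fun
  have h2 := Pool.Agent.Helper16.PP.p_upr
  have h4 := w_log
  classical
  intro p hpF K M K₁ M₁ _ _ _ _ _ _ _ _ _ _ _ _ _ ε δ P hs B x D c hD hne
  have := hs.st1
  have := hs.st2
  have := hs.gM
  have := hs.gK
  have := hs.gMK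
  have hord := hs.ord
  have hp : p.Prime := hpF.out
  have hm0 : 0 < finrank K M := finrank_pos
  have hδ : δ ^ finrank K M = 1 := by rw [← hord]; exact pow_orderOf_eq_one δ
  obtain ⟨hPF1, hPF2⟩ := h1 p K M (finrank K M) δ P hm0 hs.copm hδ hs.irr hs.dvdP
  obtain ⟨e, he1, he2⟩ := exists_idem (finrank K M) hs.copm P hs.dvdP
  set z' : HeightOneSpectrum (𝓞 K) → Mˣ := fun q => nrm M M₁ (B.z q) with hz'
  set a : Fin B.r → AdjoinRoot P := fun i => x i - ∑ q ∈ D, c q * B.rho i (z' q) with ha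
  choose b hb using fun i => AdjoinRoot.mk_surjective (g := P) (a i)
  choose d hd using fun q => AdjoinRoot.mk_surjective (g := P) (c q)
  set Y : Mˣ := (∏ i, pol (b i) δ (B.u i)) * ∏ q ∈ D, pol (d q) δ (z' q) with hY
  set X₀ : Mˣ := pol e δ Y with hX₀
  have hval : ∀ F : Mˣ → AdjoinRoot P, IsP δ P F →
      F X₀ = ∑ i, a i * F (B.u i) + ∑ q ∈ D, c q * F (z' q) := by
    intro F hF
    have g1 := (hPF1 F hF).1
    rw [hX₀, g1, he1, one_mul, hY, hF.1, hom_prodf hF.1, hom_prodf hF.1]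
    congr 1
    · apply Finset.sum_congr rfl
      intro i _
      rw [g1, hb]
    · apply Finset.sum_congr rfl
      intro q _
      rw [g1, hd]
  -- units
  have huS : ∀ (i : Fin B.r) (v : HeightOneSpectrum (𝓞 K)), v ∉ B.S → B.u i ∈ Uv K v := by
    intro i v hv w hw
    rw [ordv_eq_zero_iff w (B.u i).ne_zero]
    exact B.uS i w (notMem_up hv hw)
  have hzU : ∀ q ∈ B.Vis, ∀ v : HeightOneSpectrum (𝓞 K), v ∉ B.S → v ≠ q → z' q ∈ Uv K v := by
    intro q hq v hv hvq w hw
    have g1 := (ord_nrm' B hq w (notMem_up hv hw)).2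
    apply g1
    intro g2
    obtain ⟨hWq, hWQ, hWw, hWf⟩ := B.Wa q hq
    have hwq : Above (B.w q) q := bel_of hWq hWw
    rw [g2] at hw
    exact hvq ((bel_of_above hw).symm.trans (bel_of_above hwq))
  refine ⟨X₀, ?_, ?_⟩
  · -- not a `p`-th power
    rintro ⟨y, hy⟩
    have hy0 : y ≠ 0 := by
      rintro rfl
      rw [zero_pow hp.ne_zero] at hy
      exact X₀.ne_zero ((map_eq_zero (algebraMap M M₁)).1 hy.symm)
    have hcop : (finrank M M₁).Coprime p := hs.c1
    have hzero : ∀ F : Mˣ → AdjoinRoot P, IsP δ P F → F X₀ = 0 := by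
      intro F hF
      have g1 : (nrm M M₁ (Units.mk0 y hy0)) ^ p = X₀ ^ finrank M M₁ := by
        apply Units.ext
        rw [Units.val_pow_eq_pow_val, Units.val_pow_eq_pow_val]
        change (Algebra.norm M y) ^ p = _
        rw [← map_pow, hy, Algebra.norm_algebraMap]
      have g2 : p • F (nrm M M₁ (Units.mk0 y hy0)) = finrank M M₁ • F X₀ := by
        rw [← hom_pow hF.1, g1, hom_pow hF.1]
      rw [p_nsmul] at g2
      have g3 : addOrderOf (F X₀) ∣ finrank M M₁ := addOrderOf_dvd_of_nsmul_eq_zero g2.symm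
      have g4 : addOrderOf (F X₀) ∣ p := addOrderOf_dvd_of_nsmul_eq_zero (p_nsmul _)
      have g5 := Nat.dvd_gcd g3 g4
      rw [hcop] at g5
      exact AddMonoid.addOrderOf_eq_one_iff.1 (Nat.dvd_one.1 g5)
    by_cases hDe : D.Nonempty
    · obtain ⟨q, hq⟩ := hDe
      obtain ⟨hqV, hcq⟩ := hD q hq
      have hnvP : IsP δ P (B.nv q) := by
        refine (hPF2 (ordp p (B.w q)) ?_).1
        intro s t
        show ((ordv (B.w q) ((s : M) * (t : M)) : ℤ) : ZMod p) = _
        rw [ordv_mul _ s.ne_zero t.ne_zero]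
        push_cast
        rfl
      have g1 := hval _ hnvP
      rw [hzero _ hnvP] at g1
      have hqS : q ∉ B.S := hqV.1
      obtain ⟨hWq, hWQ, hWw, hWf⟩ := B.Wa q hqV
      have hwq : Above (B.w q) q := bel_of hWq hWw
      have g2 : ∀ i, B.nv q (B.u i) = 0 := by
        intro i
        show ∑ j ∈ Finset.range (finrank K M), _ = _
        apply Finset.sum_eq_zero
        intro j _
        have g3 : ordp p (B.w q) (act (δ ^ j) (B.u i)) = 0 := by
          unfold ordp
          rw [act_mem_Uv (huS i q hqS) (δ ^ j) (B.w q) hwq, Int.cast_zero]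
        rw [g3, map_zero, zero_mul]
      have g4 : ∑ i, a i * B.nv q (B.u i) = 0 :=
        Finset.sum_eq_zero (fun i _ => by rw [g2, mul_zero])
      have g5 : ∑ q' ∈ D, c q' * B.nv q (z' q') = c q := by
        rw [Finset.sum_eq_single q]
        · rw [(nv_nrm' hs.dvdP hord B hqV hqV).1 rfl, mul_one]
        · intro q' hq' hqq
          rw [(nv_nrm' hs.dvdP hord B hqV (hD q' hq').1).2 (Ne.symm hqq), mul_zero]
        · intro g6
          exact absurd hq g6
      rw [g4, g5, zero_add] at g1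
      exact hcq g1.symm
    · rcases hne with g0 | g0
      · exact hDe g0
      · obtain ⟨j, hj⟩ : ∃ j, x j ≠ 0 := by
          by_contra hcon
          push Not at hcon
          exact g0 (funext hcon)
        have hDE : D = ∅ := Finset.not_nonempty_iff_eq_empty.1 hDe
        have g1 := hval _ (B.rhoP j)
        rw [hzero _ (B.rhoP j), hDE, Finset.sum_empty, add_zero,
          Finset.sum_congr rfl (fun i _ => by rw [B.rhou j i])] at g1
        simp only [mul_ite, mul_one, mul_zero, Finset.sum_ite_eq, Finset.mem_univ,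
          if_true] at g1
        rw [ha] at g1
        simp only [hDE, Finset.sum_empty, sub_zero] at g1
        exact hj g1.symm
  · -- local `p`-th powers
    intro v hv hvD hsum W hW _
    have hvS : v ∉ B.S := hv.1
    obtain ⟨hWv, hWQ, hWw, hWf⟩ := B.Wa v hv
    have hwv : Above (B.w v) v := bel_of hWv hWw
    have hfh : Hom (fun x : Mˣ ↦ B.th v (inc M M₁ x)) := by
      intro s t
      show B.th v (inc M M₁ (s * t)) = _
      rw [map_mul, B.thh v hv]
    obtain ⟨hRP, hR3⟩ := hPF2 _ hfh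
    have hRP' : IsP δ P (B.R v) := hRP
    have g1 := hval _ hRP'
    have g2 : B.R v X₀ = 0 := by
      rw [g1, ← hsum]
      have g3 : ∀ q ∈ D, c q * B.A v q =
          c q * B.R v (z' q) - ∑ i, c q * (B.R v (B.u i) * B.rho i (z' q)) := by
        intro q _
        rw [← Finset.mul_sum]
        show c q * (B.R v (z' q) - ∑ i, B.R v (B.u i) * B.rho i (z' q)) = _
        ring
      rw [Finset.sum_congr rfl g3, Finset.sum_sub_distrib, Finset.sum_comm]
      have g4 : ∀ i, a i * B.R v (B.u i) = x i * B.R v (B.u i) -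
          ∑ q ∈ D, c q * (B.R v (B.u i) * B.rho i (z' q)) := by
        intro i
        rw [ha]
        simp only []
        rw [sub_mul, Finset.sum_mul]
        congr 1
        apply Finset.sum_congr rfl
        intro q _
        ring
      rw [Finset.sum_congr rfl (fun i _ => g4 i), Finset.sum_sub_distrib]
      ring
    have hpw : Pw p (pol P δ X₀) := pw_pol (finrank K M) δ hδ P e he2 Y
    have g5 := hR3 X₀ hpw g2
    -- the conjugation
    obtain ⟨g, hg⟩ : ConjP K W (B.W v) :=
      (h2 p K M₁ B.S).2.2.2.2.2.2 v (B.W v) W hWv hW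
    obtain ⟨i, hi, hgi⟩ := exists_pow δ hord
      (AlgEquiv.restrictNormalHom (F := K) (K₁ := M₁) M g⁻¹)
    have hc : ∀ t : M, (g⁻¹ : M₁ ≃ₐ[K] M₁) (algebraMap M M₁ t) =
        algebraMap M M₁ ((δ ^ i : M ≃ₐ[K] M) t) := by
      intro t
      rw [hgi]
      exact (AlgEquiv.restrictNormal_commutes (g⁻¹ : M₁ ≃ₐ[K] M₁) M t).symm
    have hXU : X₀ ∈ Uv K v := by
      rw [hX₀]
      apply pol_mem_Uv
      rw [hY]
      refine Subgroup.mul_mem _ (Subgroup.prod_mem _ fun i _ => pol_mem_Uv (huS i v hvS) _ _)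
        (Subgroup.prod_mem _ fun q hq => pol_mem_Uv (hzU q (hD q hq).1 v hvS ?_) _ _)
      rintro rfl
      exact hvD hq
    have hord0 : ordv (B.W v) ((inc M M₁ (act (δ ^ i) X₀) : M₁ˣ) : M₁) = 0 := by
      show ordv (B.W v) (algebraMap M M₁ ((act (δ ^ i) X₀ : Mˣ) : M)) = 0
      rw [ord_of_unr hWv hWw (B.unr v hvS (B.W v) hWv)]
      exact act_mem_Uv hXU (δ ^ i) (B.w v) hwv
    have g7 := (h4 p K M K₁ M₁ ε δ P hs B v hv).2.2 (inc M M₁ (act (δ ^ i) X₀))
      (by rw [hord0]; exact dvd_zero _)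
    have g8 : LocPow p (B.W v) ((inc M M₁ (act (δ ^ i) X₀) : M₁ˣ) : M₁) := g7.1 (g5 i)
    have g9 : ((inc M M₁ (act (δ ^ i) X₀) : M₁ˣ) : M₁) =
        (g⁻¹ : M₁ ≃ₐ[K] M₁) (algebraMap M M₁ (X₀ : M)) := (hc _).symm
    rw [g9, ← locPow_conj g hg] at g8
    have g10 : g ((g⁻¹ : M₁ ≃ₐ[K] M₁) (algebraMap M M₁ (X₀ : M))) = algebraMap M M₁ (X₀ : M) :=
      g.apply_symm_apply _
    rwa [g10] at g8

end Pool.Agent.Helper42.PP1
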