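import Pool.Agent.Helper42.PP1.Goals
import Pool.Agent.Helper42.PP.NZY
import Pool.Agent.Helper30.PP.PFUN

/-!
# Project PP, the case `m = 1`: W_NZY
-/

set_option autoImplicit false
set_option linter.unusedSectionVars false

namespace Pool.Agent.Helper42.PP1

open NumberField Polynomial Module IsDedekindDomain Pool.Agent.Helper51.SigLeo
open Pool.Agent.Helper51.RP Pool.Agent.Helper42.RD Pool.Agent.Helper42.PP
open Pool.Agent.Helper40.RS (bel gw bel_smul lies conj_of_bel free_gw absNorm_free val_smul)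
open Pool.Agent.Helper13.RD (eq_gw ram_free eq_of_val)
open Pool.Agent.Helper40.RD (bel_of_above ordW)

section main

variable {p : ℕ} [Fact p.Prime]
  {K M K₁ M₁ : Type} [Field K] [NumberField K] [Field M] [NumberField M] [Field K₁]
  [NumberField K₁] [Field M₁] [NumberField M₁] [Algebra K M] [Algebra K K₁] [Algebra K M₁]
  [Algebra M M₁] [Algebra K₁ M₁] {ε : K₁} {δ : M ≃ₐ[K] M} {P : (ZMod p)[X]}

/-- (1), the valuations of the norm of `z v`. -/
theorem ord_nrm (hs : SitW p K M K₁ M₁ ε δ P) (B : Base p K M K₁ M₁ ε δ P)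
    {v : HeightOneSpectrum (𝓞 K)} (hv : v ∈ B.Vis) (w : HeightOneSpectrum (𝓞 M))
    (hw : w ∉ up M B.S) :
    (w = B.w v → ordv w (nrm M M₁ (B.z v) : M) = 1) ∧
      (w ≠ B.w v → ordv w (nrm M M₁ (B.z v) : M) = 0) := by
  classical
  have := hs.st1
  have := hs.gMK
  have : IsGalois M M₁ := IsGalois.tower_top_of_isGalois K M M₁
  obtain ⟨hWv, hWQ, hWw, hWf⟩ := B.Wa v hv
  have hvS : v ∉ B.S := hv.1
  -- general formula
  have key : ∀ W : HeightOneSpectrum (𝓞 M₁), Above W w →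
      ordv w (nrm M M₁ (B.z v) : M) = ∑ g : M₁ ≃ₐ[M] M₁, ordv W (g (B.z v : M₁)) := by
    intro W hW
    have hb : bel K W ∉ B.S := by
      have h1 := bel_bel (K := K) (M := M) W
      rw [bel_of_above hW] at h1
      rw [← h1]
      exact bel_notMem hw
    have h2 := ord_of_unr (K := K) (M := M) (W := W) (w := w) (v := bel K W) rfl hW
      (B.unr (bel K W) hb W rfl) (nrm M M₁ (B.z v) : M)
    rw [← h2]
    have h3 : algebraMap M M₁ (nrm M M₁ (B.z v) : M) = ∏ g : M₁ ≃ₐ[M] M₁, g (B.z v : M₁) :=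
      Algebra.norm_eq_prod_automorphisms M (B.z v : M₁)
    rw [h3, ordv_prod]
    intro g _
    exact (map_ne_zero g).2 (B.z v).ne_zero
  -- the values of the terms
  have hterm : ∀ (W : HeightOneSpectrum (𝓞 M₁)), Above W w → ∀ g : M₁ ≃ₐ[M] M₁,
      ∃ W' : HeightOneSpectrum (𝓞 M₁), (∀ y : M₁, W.valuation M₁ (g y) = W'.valuation M₁ y) ∧
        Above W' w ∧ (W' = B.W v → ordv W (g (B.z v : M₁)) = 1) ∧
        (W' ≠ B.W v → ordv W (g (B.z v : M₁)) = 0) := by
    intro W hW g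
    obtain ⟨W', h1, h2⟩ := exists_pull (K := M) W g
    have h3 : Above W' w := by
      rw [bel_of_above hW] at h2
      rw [← h2]; rfl
    have h4 : W' ∉ up M₁ B.S := by
      apply notMem_up (v := bel K W')
      · have h5 := bel_bel (K := K) (M := M) W'
        rw [bel_of_above h3] at h5
        rw [← h5]
        exact bel_notMem hw
      · rfl
    have h6 := B.zo v hv W' h4
    refine ⟨W', h1, h3, ?_, ?_⟩
    · intro h
      rw [ordv_of_val h1]
      exact h6.1 h
    · intro h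
      rw [ordv_of_val h1]
      exact h6.2 h
  constructor
  · intro hwv
    subst hwv
    rw [key (B.W v) hWw, Finset.sum_eq_single (1 : M₁ ≃ₐ[M] M₁)]
    · obtain ⟨W', h1, h2, h3, h4⟩ := hterm (B.W v) hWw 1
      apply h3
      exact (eq_of_val fun y => (h1 y)).symm
    · intro g _ hg
      obtain ⟨W', h1, h2, h3, h4⟩ := hterm (B.W v) hWw g
      apply h4
      intro h5
      apply hg
      subst h5
      have h6 := hWf (g.restrictScalars K) (fun y => h1 y)
      ext y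
      have h7 := congrArg (fun f : M₁ ≃ₐ[K] M₁ => f y) h6
      exact h7
    · intro h
      exact absurd (Finset.mem_univ _) h
  · intro hne
    obtain ⟨W, hW⟩ := exists_bel (M₁ := M₁) w
    have hW' : Above W w := by rw [← hW]; rfl
    rw [key W hW']
    apply Finset.sum_eq_zero
    intro g _
    obtain ⟨W', h1, h2, h3, h4⟩ := hterm W hW' g
    apply h4
    intro h5
    apply hne
    rw [h5] at h2
    rw [← bel_of_above h2, ← bel_of_above hWw]

theorem nv_nrm (hs : SitW p K M K₁ M₁ ε δ P) (B : Base p K M K₁ M₁ ε δ P)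
    {v v' : HeightOneSpectrum (𝓞 K)} (hv : v ∈ B.Vis) (hv' : v' ∈ B.Vis) :
    (v = v' → B.nv v (nrm M M₁ (B.z v')) = 1) ∧ (v ≠ v' → B.nv v (nrm M M₁ (B.z v')) = 0) := by
  classical
  have := hs.st1
  have := hs.gM
  obtain ⟨hWv, hWQ, hWw, hWf⟩ := B.Wa v hv
  obtain ⟨hWv', hWQ', hWw', hWf'⟩ := B.Wa v' hv'
  have hvS : v ∉ B.S := hv.1
  have hwv : Above (B.w v) v := bel_of hWv hWw
  have hwv' : Above (B.w v') v' := bel_of hWv' hWw'
  have := hs.gMK
  have hfree : FreeP K (B.w v) := free_below hWw hWf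
  have hterm : ∀ i : ℕ, ∃ w' : HeightOneSpectrum (𝓞 M),
      (∀ y : M, (B.w v).valuation M ((δ ^ i : M ≃ₐ[K] M) y) = w'.valuation M y) ∧
      Above w' v ∧ (w' = B.w v' → ordp p (B.w v) (act (δ ^ i) (nrm M M₁ (B.z v'))) = 1) ∧
      (w' ≠ B.w v' → ordp p (B.w v) (act (δ ^ i) (nrm M M₁ (B.z v'))) = 0) := by
    intro i
    obtain ⟨w', h1, h2⟩ := exists_pull (K := K) (B.w v) (δ ^ i)
    have h3 : Above w' v := by
      rw [bel_of_above hwv] at h2
      rw [← h2]; rfl
    have h4 := ord_nrm hs B hv' w' (notMem_up hvS h3)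
    refine ⟨w', h1, h3, ?_, ?_⟩
    · intro h
      show ((ordv (B.w v) ((δ ^ i : M ≃ₐ[K] M) (nrm M M₁ (B.z v') : M)) : ℤ) : ZMod p) = 1
      rw [ordv_of_val h1, h4.1 h]
      norm_num
    · intro h
      show ((ordv (B.w v) ((δ ^ i : M ≃ₐ[K] M) (nrm M M₁ (B.z v') : M)) : ℤ) : ZMod p) = 0
      rw [ordv_of_val h1, h4.2 h]
      norm_num
  have hm0 : 0 < finrank K M := finrank_pos
  constructor
  · intro h
    subst h
    show ∑ i ∈ Finset.range (finrank K M), _ = _
    rw [Finset.sum_eq_single 0]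
    · obtain ⟨w', h1, h2, h3, h4⟩ := hterm 0
      rw [h3, map_one, one_mul, Nat.sub_zero, root_pow_m _ hs.dvdP]
      rw [pow_zero] at h1
      exact (eq_of_val fun y => (h1 y)).symm
    · intro i hi hi0
      obtain ⟨w', h1, h2, h3, h4⟩ := hterm i
      rw [h4, map_zero, zero_mul]
      intro h5
      subst h5
      have h6 := hfree _ h1
      have h7 : orderOf δ ∣ i := orderOf_dvd_of_pow_eq_one h6
      rw [hs.ord] at h7
      have h8 := Nat.le_of_dvd (Nat.pos_of_ne_zero hi0) h7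
      have h9 := Finset.mem_range.1 hi
      omega
    · intro h
      exact absurd (Finset.mem_range.2 hm0) h
  · intro h
    show ∑ i ∈ Finset.range (finrank K M), _ = _
    apply Finset.sum_eq_zero
    intro i _
    obtain ⟨w', h1, h2, h3, h4⟩ := hterm i
    rw [h4, map_zero, zero_mul]
    intro h5
    apply h
    rw [h5] at h2
    exact (bel_of_above h2).symm.trans (bel_of_above hwv')

theorem wf_y (hs : SitW p K M K₁ M₁ ε δ P) (B : Base p K M K₁ M₁ ε δ P)
    {v v' : HeightOneSpectrum (𝓞 K)} (hv : v ∈ B.calP) (hv' : v' ∈ B.calP) :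
    (v = v' → wf p K ε (ordp p (B.Q v)) (B.y v') = 1) ∧
      (v ≠ v' → wf p K ε (ordp p (B.Q v)) (B.y v') = 0) := by
  classical
  have := hs.gK
  obtain ⟨hQv, hQf⟩ := B.Qa v hv
  obtain ⟨hQv', hQf'⟩ := B.Qa v' hv'
  have hvS : v ∉ B.S := hv.1
  have hterm : ∀ σ : K₁ ≃ₐ[K] K₁, ∃ Q' : HeightOneSpectrum (𝓞 K₁),
      (∀ y : K₁, (B.Q v).valuation K₁ (σ y) = Q'.valuation K₁ y) ∧
      Above Q' v ∧ (Q' = B.Q v' → ordp p (B.Q v) (act σ (B.y v')) = 1) ∧
      (Q' ≠ B.Q v' → ordp p (B.Q v) (act σ (B.y v')) = 0) := by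
    intro σ
    obtain ⟨Q', h1, h2⟩ := exists_pull (K := K) (B.Q v) σ
    have h3 : Above Q' v := by
      rw [bel_of_above hQv] at h2
      rw [← h2]; rfl
    have h4 := B.yo v' hv' Q' (notMem_up hvS h3)
    refine ⟨Q', h1, h3, ?_, ?_⟩
    · intro h
      show ((ordv (B.Q v) (σ (B.y v' : K₁)) : ℤ) : ZMod p) = 1
      rw [ordv_of_val h1, h4.1 h]
      norm_num
    · intro h
      show ((ordv (B.Q v) (σ (B.y v' : K₁)) : ℤ) : ZMod p) = 0
      rw [ordv_of_val h1, h4.2 h]
      norm_num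
  have hp1 : 1 < p := (Fact.out : p.Prime).one_lt
  constructor
  · intro h
    subst h
    unfold wf
    rw [Finset.sum_eq_single (1 : K₁ ≃ₐ[K] K₁)]
    · obtain ⟨Q', h1, h2, h3, h4⟩ := hterm 1
      rw [h3, mul_one, nsig_eq hs.prim hp1 1 1 (by simp)]
      · norm_num
      · exact (eq_of_val fun y => (h1 y)).symm
    · intro σ _ hσ
      obtain ⟨Q', h1, h2, h3, h4⟩ := hterm σ
      rw [h4, mul_zero]
      intro h5
      subst h5
      exact hσ (hQf σ h1)
    · intro h
      exact absurd (Finset.mem_univ _) h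
  · intro h
    unfold wf
    apply Finset.sum_eq_zero
    intro σ _
    obtain ⟨Q', h1, h2, h3, h4⟩ := hterm σ
    rw [h4, mul_zero]
    intro h5
    apply h
    rw [h5] at h2
    exact (bel_of_above h2).symm.trans (bel_of_above hQv')

end main

theorem w_nzy : W_NZY := by
  have hF := Pool.Agent.Helper30.PP.p_fun
  intro p _ K M K₁ M₁ _ _ _ _ _ _ _ _ _ _ _ _ _ ε δ P hs B
  have := hs.st1
  have := hs.st2
  have := hs.gM
  have := hs.gK
  have := hs.gMK
  refine ⟨fun v hv => ⟨ord_nrm hs B hv, (nv_nrm hs B hv hv).1 rfl,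
    fun v' hv' h => (nv_nrm hs B hv hv').2 h⟩,
    fun v hv => ⟨(wf_y hs B hv hv).1 rfl, fun v' hv' h => (wf_y hs B hv hv').2 h⟩, ?_, ?_⟩
  · intro v hv w hw x hx hn
    obtain ⟨hWv, hWQ, hWw, hWf⟩ := B.Wa v hv
    have hwv : Above (B.w v) v := bel_of hWv hWw
    have hbel : bel K w = bel K (B.w v) := (bel_of_above hw).trans (bel_of_above hwv).symm
    obtain ⟨g, hg⟩ := conj_of_bel (K := K) w (B.w v) hbel
    obtain ⟨i, hi, hgi⟩ := exists_pow δ hs.ord g⁻¹
    have h1 := ((hF p K M (finrank K M) δ P finrank_pos hs.copm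
      (by rw [← hs.ord]; exact pow_orderOf_eq_one δ) hs.irr hs.dvdP).2
      (ordp p (B.w v)) ?_).2 x hx hn i
    · have h2 : ordv w (x : M) = ordv (B.w v) ((δ ^ i : M ≃ₐ[K] M) (x : M)) := by
        rw [hgi, ← ordv_of_val hg]
        congr 1
        show (x : M) = (g * g⁻¹) (x : M)
        rw [mul_inv_cancel]
        rfl
      rw [h2]
      exact (ZMod.intCast_zmod_eq_zero_iff_dvd _ _).1 h1
    · intro a b
      show ((ordv (B.w v) ((a : M) * (b : M)) : ℤ) : ZMod p) = _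
      rw [ordv_mul _ a.ne_zero b.ne_zero]
      push_cast
      rfl
  · intro v hv
    obtain ⟨hWv, hWQ, hWw, hWf⟩ := B.Wa v hv
    exact ⟨ord_of_unr hWv hWw (B.unr v hv.1 (B.W v) hWv),
      ord_of_unr hWv hWQ (B.unr v hv.1 (B.W v) hWv)⟩

end Pool.Agent.Helper42.PP1
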