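import Pool.Agent.Helper42.PP1.SMA
import Pool.Agent.Helper14.PP.BKUM
import Pool.Agent.Helper14.PP.BPRC
import Pool.Agent.Helper14.PP.A1FIX
import Pool.Agent.Helper2.PP.BDRC
import Pool.Agent.Helper5.PP.BTRS
import Pool.Agent.Helper53.PP.BTRN
import Pool.Agent.Helper83.PP.BFRE

/-!
# Project PP: `W_SM`
-/

set_option autoImplicit false
set_option linter.unusedSectionVars false

namespace Pool.Agent.Helper42.PP1

open NumberField Polynomial Module IsDedekindDomain Pool.Agent.Helper51.SigLeo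
open Pool.Agent.Helper51.RP Pool.Agent.Helper42.RD Pool.Agent.Helper42.PP Pool.Agent.Helper76.PP
open Pool.Agent.Helper40.RS (bel)
open Pool.Agent.Helper12.PP (kap_span kap_psi kap_eta kap_chi kap_fin)
open Pool.Agent.Helper38.RS (pz)
open Pool.Agent.Helper84.RS (summable_norm)
open Pool.Agent.Helper51.PP (RC)
open Pool.Agent.Helper94.PP (NTP A1_PRI A1_FIX)

section general

variable {F : Type} [Field F] [NumberField F]

/-- The real part of a ray class character is at most `1` in absolute value. -/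
theorem rc_norm_le {𝔪 : Ideal (𝓞 F)} {χ : Ideal (𝓞 F) → ℂ} (h : RC 𝔪 χ) (I : Ideal (𝓞 F)) :
    |(χ I).re| ≤ 1 := by
  refine (Complex.abs_re_le_norm _).trans ?_
  by_cases h0 : I = ⊥
  · rw [h0, h.zero, norm_zero]; exact zero_le_one
  · by_cases h1 : I ⊔ 𝔪 = ⊤
    · exact (h.cop I h0 h1).le
    · rw [h.ncop I h0 h1, norm_zero]; exact zero_le_one

/-- The sum over the primes of `1 - Re χ`. -/
theorem rc_sum {𝔪 : Ideal (𝓞 F)} {χ : Ideal (𝓞 F) → ℂ} (h : RC 𝔪 χ) {s : ℝ} (hs : 1 < s) :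
    ∑' W : HeightOneSpectrum (𝓞 F), (1 - (χ W.asIdeal).re) *
      (Ideal.absNorm W.asIdeal : ℝ) ^ (-s) = pz (F := F) Set.univ s -
      ∑' W : HeightOneSpectrum (𝓞 F), (χ W.asIdeal).re * (Ideal.absNorm W.asIdeal : ℝ) ^ (-s) := by
  have h1 := summable_norm F s hs
  have h2 : Summable fun W : HeightOneSpectrum (𝓞 F) =>
      (χ W.asIdeal).re * (Ideal.absNorm W.asIdeal : ℝ) ^ (-s) := by
    refine Summable.of_norm_bounded h1 fun W => ?_
    rw [norm_mul, Real.norm_eq_abs, Real.norm_eq_abs,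
      abs_of_nonneg (Real.rpow_nonneg (Nat.cast_nonneg _) _)]
    exact mul_le_of_le_one_left (Real.rpow_nonneg (Nat.cast_nonneg _) _) (rc_norm_le h _)
  have e1 : pz (F := F) Set.univ s = ∑' w : HeightOneSpectrum (𝓞 F),
      (Ideal.absNorm w.asIdeal : ℝ) ^ (-s) := by
    unfold pz
    exact tsum_univ fun w : HeightOneSpectrum (𝓞 F) => (Ideal.absNorm w.asIdeal : ℝ) ^ (-s)
  rw [e1, ← h1.tsum_sub h2]
  refine tsum_congr fun W => ?_
  ring

end general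

section main

variable {p : ℕ} [Fact p.Prime] {k : Type} [NormedField k] [NormedAlgebra ℚ_[p] k]
  {K M K₁ M₁ : Type} [Field K] [NumberField K] [Field M] [NumberField M] [Field K₁]
  [NumberField K₁] [Field M₁] [NumberField M₁] [Algebra K M] [Algebra K K₁] [Algebra K M₁]
  [Algebra M M₁] [Algebra K₁ M₁] {ε : K₁} {δ : M ≃ₐ[K] M} {P : (ZMod p)[X]}
  {n : ℕ}

/-- The additive function on ideals attached to the functional. -/
noncomputable def PsS (B : Base p K M K₁ M₁ ε δ P) {L : IwasawaLog p k} {T : Set (K →+* k)}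
    {aτ : K₁ˣ} (E : TauN n B L T aτ) (tr : AdjoinRoot P →ₗ[ZMod p] ZMod p)
    (β : Fin n → AdjoinRoot P) (D : Finset (HeightOneSpectrum (𝓞 K)))
    (y : HeightOneSpectrum (𝓞 K) → AdjoinRoot P) : Ideal (𝓞 M₁) → ZMod p :=
  idl (up M₁ B.S) (fun x ↦ tr (fSN B E β D y (nrm M M₁ x)))

theorem fSN_empty (B : Base p K M K₁ M₁ ε δ P) {L : IwasawaLog p k} {T : Set (K →+* k)}
    {aτ : K₁ˣ} (E : TauN n B L T aτ) (β : Fin n → AdjoinRoot P)
    (y y' : HeightOneSpectrum (𝓞 K) → AdjoinRoot P) : fSN B E β ∅ y = fSN B E β ∅ y' := by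
  funext x
  unfold fSN
  rw [Finset.sum_empty, Finset.sum_empty]

/-- The bound for the sum over the primes. -/
theorem pri_bound (hPRI : A1_PRI) [IsTotallyComplex M₁] (hs : SitW p K M K₁ M₁ ε δ P)
    (B : Base p K M K₁ M₁ ε δ P) {L : IwasawaLog p k} {T : Set (K →+* k)}
    {aτ : K₁ˣ} (E : TauN n B L T aτ) (tr : AdjoinRoot P →ₗ[ZMod p] ZMod p) (htr : tr ≠ 0)
    (ψ₁ : AddChar (ZMod p) ℂ) (hψ : ψ₁ ≠ 1) :
    ∃ C : ℝ, ∀ (β : Fin n → AdjoinRoot P) (D : Finset (HeightOneSpectrum (𝓞 K)))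
      (y : HeightOneSpectrum (𝓞 K) → AdjoinRoot P), (∀ v ∈ D, v ∈ B.Vis ∧ y v ≠ 0) →
      (D.Nonempty ∨ β ≠ 0) → (∀ i, fSN B E β D y (B.u i) = 0) →
      ∀ s : ℝ, 1 < s → s ≤ 2 →
      ∑' W : HeightOneSpectrum (𝓞 M₁), (chI (mD p M₁ B.S D) ψ₁ (PsS B E tr β D y)
        W.asIdeal).re * (Ideal.absNorm W.asIdeal : ℝ) ^ (-s) ≤
        Real.log (1 + Real.log (Ideal.absNorm (mD p M₁ B.S D))) + C := by
  classical
  have hne : ∀ D : Finset (HeightOneSpectrum (𝓞 K)), mD p M₁ B.S D ≠ ⊥ := fun D =>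
    mD_ne_bot Pool.Agent.Helper94.PP.b_idn B.S D B.abp
  have hlog : ∀ D : Finset (HeightOneSpectrum (𝓞 K)),
      0 ≤ Real.log (1 + Real.log (Ideal.absNorm (mD p M₁ B.S D))) := by
    intro D
    apply Real.log_nonneg
    have h1 : (1 : ℝ) ≤ (Ideal.absNorm (mD p M₁ B.S D) : ℝ) := by
      have h2 : Ideal.absNorm (mD p M₁ B.S D) ≠ 0 := by
        rw [Ne, Ideal.absNorm_eq_zero_iff]; exact hne D
      exact_mod_cast Nat.one_le_iff_ne_zero.2 h2
    linarith [Real.log_nonneg h1]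
  obtain ⟨C₀, hC₀⟩ := hPRI M₁
  have hfinκ : Finite (AdjoinRoot P) := kap_fin p P hs.irr.ne_zero
  -- the case `D = ∅`
  have hfix : ∀ β : Fin n → AdjoinRoot P, ∃ C : ℝ, β ≠ 0 →
      (∀ i, fSN B E β ∅ 0 (B.u i) = 0) → ∀ s : ℝ, 1 < s → s ≤ 2 →
      ∑' W : HeightOneSpectrum (𝓞 M₁), (chI (mD p M₁ B.S ∅) ψ₁ (PsS B E tr β ∅ 0)
        W.asIdeal).re * (Ideal.absNorm W.asIdeal : ℝ) ^ (-s) ≤ C := by
    intro β
    by_cases hβ : β ≠ 0 ∧ ∀ i, fSN B E β ∅ 0 (B.u i) = 0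
    · obtain ⟨h1, ⟨I, hI1, hI2, hI3, -⟩, -, -⟩ := w_smf p k K M K₁ M₁ ε δ P hs B L T aτ n E tr htr β
        ∅ 0 (fun v hv => absurd hv (Finset.notMem_empty v)) (Or.inr hβ.1) hβ.2
      obtain ⟨C, hC⟩ := Pool.Agent.Helper14.PP.goalFIX M₁ _ _
        (Pool.Agent.Helper14.PP.b_prc p M₁ _ _ h1 ψ₁) ⟨I, hI1, hI2, by
          show chI _ ψ₁ _ I ≠ 1
          unfold chI
          rw [if_pos ⟨hI1, hI2⟩]
          exact fun h => hI3 (kap_psi p ψ₁ hψ _ h)⟩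
      exact ⟨C, fun _ _ => hC⟩
    · exact ⟨0, fun h1 h2 => absurd ⟨h1, h2⟩ hβ⟩
  choose Cf hCf using hfix
  obtain ⟨C₁, hC₁⟩ : ∃ C₁, ∀ β, Cf β ≤ C₁ := by
    have h1 := (Set.finite_range Cf).bddAbove
    obtain ⟨C₁, h2⟩ := h1
    exact ⟨C₁, fun β => h2 ⟨β, rfl⟩⟩
  refine ⟨max C₀ C₁, ?_⟩
  intro β D y hD hDβ hf s hs1 hs2
  by_cases hDn : D.Nonempty
  · obtain ⟨h1, ⟨I, hI1, hI2, hI3, hI4⟩, -, -⟩ := w_smf p k K M K₁ M₁ ε δ P hs B L T aτ n E tr htr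
      β D y hD hDβ hf
    obtain ⟨α, rfl⟩ := hI4 hDn
    have h2 := hC₀ (mD p M₁ B.S D) (chI (mD p M₁ B.S D) ψ₁ (PsS B E tr β D y))
      (Pool.Agent.Helper14.PP.b_prc p M₁ _ _ h1 ψ₁) ⟨α, by
        rintro rfl
        exact hI1 (Ideal.span_singleton_eq_bot.2 rfl), hI2, by
        unfold chI
        rw [if_pos ⟨hI1, hI2⟩]
        exact fun h => hI3 (kap_psi p ψ₁ hψ _ h)⟩ s hs1 hs2
    refine h2.trans ?_
    linarith [le_max_left C₀ C₁]
  · have hD0 : D = ∅ := Finset.not_nonempty_iff_eq_empty.1 hDn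
    subst hD0
    have hβ : β ≠ 0 := hDβ.resolve_left hDn
    have e1 : PsS B E tr β ∅ y = PsS B E tr β ∅ 0 := by
      unfold PsS
      rw [fSN_empty B E β y 0]
    rw [e1]
    have h2 := hCf β hβ (by rw [fSN_empty B E β 0 y]; exact hf) s hs1 hs2
    refine h2.trans ?_
    linarith [hC₁ β, le_max_right C₀ C₁, hlog ∅]

/-- The norm of the modulus. -/
theorem mod_bound (B : Base p K M K₁ M₁ ε δ P) : ∃ C : ℝ,
    ∀ D : Finset (HeightOneSpectrum (𝓞 K)),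
      0 ≤ Real.log (Real.log (((∏ v ∈ D, Ideal.absNorm v.asIdeal : ℕ) : ℝ) + 3)) ∧
      Real.log (1 + Real.log (Ideal.absNorm (mD p M₁ B.S D))) ≤
        Real.log (Real.log (((∏ v ∈ D, Ideal.absNorm v.asIdeal : ℕ) : ℝ) + 3)) + C := by
  classical
  obtain ⟨h1, h2, -⟩ := Pool.Agent.Helper94.PP.b_idn p K M₁ B.S B.abp
  set N₀ : ℕ := Ideal.absNorm (modu p M₁ B.S) with hN₀
  set d : ℕ := finrank K M₁ with hd
  refine ⟨Real.log (1 + Real.log N₀ + d), fun D => ?_⟩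
  set N : ℕ := ∏ v ∈ D, Ideal.absNorm v.asIdeal with hN
  have hNm : Ideal.absNorm (mD p M₁ B.S D) = N₀ * N ^ d := by
    unfold mD
    rw [map_mul, map_prod, ← hN₀, hN, ← Finset.prod_pow]
    congr 1
    exact Finset.prod_congr rfl fun v _ => (h2 v).2.2.1
  have hN₀1 : 1 ≤ N₀ := by
    rw [Nat.one_le_iff_ne_zero, hN₀, Ne, Ideal.absNorm_eq_zero_iff]
    exact h1
  have hN1 : 1 ≤ N := by
    rw [Nat.one_le_iff_ne_zero, hN, Finset.prod_ne_zero_iff]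
    intro v _
    rw [Ne, Ideal.absNorm_eq_zero_iff]
    exact v.ne_bot
  have hN₀r : (1 : ℝ) ≤ N₀ := by exact_mod_cast hN₀1
  have hNr : (1 : ℝ) ≤ N := by exact_mod_cast hN1
  have hl0 : 0 ≤ Real.log (N₀ : ℝ) := Real.log_nonneg hN₀r
  have hl1 : 0 ≤ Real.log (N : ℝ) := Real.log_nonneg hNr
  have hl3 : Real.log (N : ℝ) ≤ Real.log ((N : ℝ) + 3) :=
    Real.log_le_log (by linarith) (by linarith)
  have hl4 : 1 ≤ Real.log ((N : ℝ) + 3) := by
    have h5 : Real.log 4 ≤ Real.log ((N : ℝ) + 3) := Real.log_le_log (by norm_num) (by linarith)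
    have h6 : Real.log 4 = 2 * Real.log 2 := by
      rw [show (4 : ℝ) = 2 ^ 2 by norm_num, Real.log_pow]
      norm_num
    have h7 := Real.log_two_gt_d9
    linarith
  refine ⟨Real.log_nonneg hl4, ?_⟩
  rw [hNm]
  push_cast
  rw [Real.log_mul (by positivity) (by positivity), Real.log_pow]
  have hd0 : (0 : ℝ) ≤ d := Nat.cast_nonneg _
  rw [add_comm (Real.log (Real.log ((N : ℝ) + 3))), ← Real.log_mul (by positivity) (by positivity)]
  apply Real.log_le_log (by positivity)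
  nlinarith [mul_le_mul_of_nonneg_left hl3 hd0, mul_nonneg hl0 (sub_nonneg.2 hl4)]

/-- The visible primes at which the functional does not vanish. -/
def VS (B : Base p K M K₁ M₁ ε δ P) {L : IwasawaLog p k} {T : Set (K →+* k)}
    {aτ : K₁ˣ} (E : TauN n B L T aτ) (β : Fin n → AdjoinRoot P)
    (D : Finset (HeightOneSpectrum (𝓞 K))) (y : HeightOneSpectrum (𝓞 K) → AdjoinRoot P) :
    Set (HeightOneSpectrum (𝓞 K)) :=
  {v | v ∈ B.Vis ∧ v ∉ D ∧ fSN B E β D y (nrm M M₁ (B.z v)) ≠ 0}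

theorem sm_main (hPRI : A1_PRI) [IsTotallyComplex M₁] (hs : SitW p K M K₁ M₁ ε δ P)
    (B : Base p K M K₁ M₁ ε δ P) {L : IwasawaLog p k} {T : Set (K →+* k)}
    {aτ : K₁ˣ} (E : TauN n B L T aτ) (tr : AdjoinRoot P →ₗ[ZMod p] ZMod p) (htr : tr ≠ 0)
    (ψ₁ : AddChar (ZMod p) ℂ) (hψ : ψ₁ ≠ 1) :
    ∃ C : ℝ, 0 ≤ C ∧ ∀ (β : Fin n → AdjoinRoot P) (D : Finset (HeightOneSpectrum (𝓞 K)))
      (y : HeightOneSpectrum (𝓞 K) → AdjoinRoot P), (∀ v ∈ D, v ∈ B.Vis ∧ y v ≠ 0) →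
      (D.Nonempty ∨ β ≠ 0) → (∀ i, fSN B E β D y (B.u i) = 0) →
      ∀ (j : ℕ) (A : Finset (HeightOneSpectrum (𝓞 K))), 2 ≤ j →
      (∀ v, v ∈ A ↔ v ∈ VS B E β D y ∧ Ideal.absNorm v.asIdeal < 2 ^ j) →
      Real.log j / (2 * finrank K M₁) -
        C * Real.log (Real.log (((∏ v ∈ D, Ideal.absNorm v.asIdeal : ℕ) : ℝ) + 3)) - C ≤
        ∑ v ∈ A, (1 : ℝ) / Ideal.absNorm v.asIdeal := by
  classical
  have := hs.gM
  have := hs.gK
  have := hs.gMK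
  obtain ⟨C₁, hC₁⟩ := Pool.Agent.Helper14.PP.psmK M₁
  obtain ⟨C₂, hC₂⟩ := pri_bound hPRI hs B E tr htr ψ₁ hψ
  obtain ⟨C₃, hC₃⟩ := mod_bound B
  obtain ⟨C₄, hC₄⟩ := Pool.Agent.Helper5.PP.b_trs Pool.Agent.Helper83.PP.b_fre
    Pool.Agent.Helper16.PP.p_upr K M₁ B.S B.unr
  obtain ⟨C₅, hC₅⟩ := Pool.Agent.Helper53.PP.b_trn K
  obtain ⟨C₆, hC₆0, hC₆⟩ := Pool.Agent.Helper2.PP.b_drc K
  have hfd : FiniteDimensional K M₁ := Module.Finite.of_restrictScalars_finite ℚ K M₁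
  have hd1 : (1 : ℝ) ≤ (finrank K M₁ : ℝ) := by
    exact_mod_cast finrank_pos (R := K) (M := M₁)
  set d : ℝ := (finrank K M₁ : ℝ) with hd
  refine ⟨|C₁| + |C₂| + |C₃| + |C₄| + |C₅| + C₆ + 2, by positivity, ?_⟩
  intro β D y hD hDβ hf j A hj hA
  obtain ⟨hPsi, -, -, hvan⟩ := w_smf p k K M K₁ M₁ ε δ P hs B L T aτ n E tr htr β D y hD hDβ hf
  have hRC : RC (mD p M₁ B.S D) (chI (mD p M₁ B.S D) ψ₁ (PsS B E tr β D y)) :=
    Pool.Agent.Helper14.PP.b_prc p M₁ _ _ hPsi ψ₁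
  set X : Ideal (𝓞 M₁) → ℂ := chI (mD p M₁ B.S D) ψ₁ (PsS B E tr β D y) with hX
  have hC₄' := hC₄ D (VS B E β D y) (fun W => 1 - (X W.asIdeal).re) (fun W => by
    have h := abs_le.1 (rc_norm_le hRC W.asIdeal)
    constructor <;> linarith [h.1, h.2]) (by
    intro W v hWv hWf hvS hvD hvV
    have hvis : v ∈ B.Vis := ⟨hvS, W, hWv, hWf⟩
    have h0 : fSN B E β D y (nrm M M₁ (B.z v)) = 0 := by
      by_contra h0
      exact hvV ⟨hvis, hvD, h0⟩
    have h1 : PsS B E tr β D y W.asIdeal = 0 := hvan v hvis h0 W hWv hWf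
    have h2 : W.asIdeal ⊔ mD p M₁ B.S D = ⊤ :=
      (Pool.Agent.Helper94.PP.b_idn p K M₁ B.S B.abp).2.2 v D hvS hvD W hWv
    have h3 : X W.asIdeal = 1 := by
      rw [hX]
      unfold chI
      rw [if_pos ⟨W.ne_bot, h2⟩, h1, AddChar.map_zero_eq_one]
    show 1 - (X W.asIdeal).re = 0
    rw [h3, Complex.one_re, sub_self])
  -- the value of `s`
  have hlog : 0 < Real.log 2 := Real.log_pos (by norm_num)
  have hlog2 : 1 / 2 < Real.log 2 := by
    have := Real.log_two_gt_d9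
    linarith
  have hj2r : (2 : ℝ) ≤ j := by exact_mod_cast hj
  have hnl : 1 < j * Real.log 2 := by nlinarith
  set s : ℝ := 1 + 1 / (j * Real.log 2) with hsd
  have hs1 : 1 < s := by
    rw [hsd]
    have : 0 < 1 / (j * Real.log 2) := one_div_pos.2 (by linarith)
    linarith
  have hs2 : s ≤ 2 := by
    rw [hsd]
    have : 1 / (j * Real.log 2) ≤ 1 := by
      rw [div_le_one (by linarith)]
      exact hnl.le
    linarith
  have hs3 : 1 / (s - 1) = j * Real.log 2 := by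
    rw [hsd, add_sub_cancel_left, one_div_one_div]
  have e1 := (abs_le.1 (hC₁ s hs1 hs2)).1
  rw [hs3, Real.log_mul (by linarith) hlog.ne'] at e1
  have e2 := hC₂ β D y hD hDβ hf s hs1 hs2
  obtain ⟨hLL0, e3⟩ := hC₃ D
  have e4 := hC₄' s hs1 hs2
  have e5 := hC₅ (VS B E β D y) j A hj hA
  rw [← hsd] at e5
  have e6 := hC₆ D
  have e7 := rc_sum hRC hs1
  set LL : ℝ := Real.log (Real.log (((∏ v ∈ D, Ideal.absNorm v.asIdeal : ℕ) : ℝ) + 3)) with hLL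
  have hll2 : -1 ≤ Real.log (Real.log 2) := by
    have h1 : Real.log (1 / 2) ≤ Real.log (Real.log 2) :=
      Real.log_le_log (by norm_num) hlog2.le
    have h2 : Real.log (1 / 2) = - Real.log 2 := by
      rw [one_div, Real.log_inv]
    have h3 := Real.log_two_lt_d9
    linarith
  set σA : ℝ := ∑ v ∈ A, (1 : ℝ) / Ideal.absNorm v.asIdeal with hσA
  set σD : ℝ := ∑ v ∈ D, (1 : ℝ) / Ideal.absNorm v.asIdeal with hσD
  have e8 : Real.log j - 1 - |C₁| - |C₂| - |C₃| - |C₄| - LL ≤ 2 * d * (σA + |C₅|) + 2 * d * σD := by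
    have a1 := neg_abs_le C₁
    have a1' := le_abs_self C₁
    have a2 := le_abs_self C₂
    have a3 := le_abs_self C₃
    have a4 := le_abs_self C₄
    have a5 := le_abs_self C₅
    have a6 : 2 * d * pz (VS B E β D y) s ≤ 2 * d * (σA + |C₅|) :=
      mul_le_mul_of_nonneg_left (by linarith) (by linarith)
    linarith
  have e9 : (Real.log j - 1 - |C₁| - |C₂| - |C₃| - |C₄| - LL) / (2 * d) ≤ σA + |C₅| + σD := by
    rw [div_le_iff₀ (by linarith)]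
    linarith
  have e10 : (1 + |C₁| + |C₂| + |C₃| + |C₄| + LL) / (2 * d) ≤ 1 + |C₁| + |C₂| + |C₃| + |C₄| + LL :=
    div_le_self (by positivity) (by linarith)
  have e11 : (Real.log j - 1 - |C₁| - |C₂| - |C₃| - |C₄| - LL) / (2 * d) =
      Real.log j / (2 * d) - (1 + |C₁| + |C₂| + |C₃| + |C₄| + LL) / (2 * d) := by
    rw [← sub_div]
    congr 1
    ring
  rw [e11] at e9
  have e12 : 0 ≤ (|C₁| + |C₂| + |C₃| + |C₄| + |C₅| + 1) * LL := by positivity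
  nlinarith

end main

end Pool.Agent.Helper42.PP1
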