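import Pool.Agent.Helper42.PP1.SMF
import Pool.Agent.Helper42.PP1.SEL
import Pool.Agent.Helper12.PP.BKAP

/-!
# Project PP, `W_SM` and `B_SM`: the algebraic part
-/

set_option autoImplicit false
set_option linter.unusedSectionVars false

namespace Pool.Agent.Helper42.PP1

open NumberField Polynomial Module IsDedekindDomain Pool.Agent.Helper51.SigLeo
open Pool.Agent.Helper51.RP Pool.Agent.Helper42.RD Pool.Agent.Helper42.PP Pool.Agent.Helper76.PP
open Pool.Agent.Helper40.RS (bel)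
open Pool.Agent.Helper12.PP (kap_span kap_psi kap_eta kap_chi)

theorem addChar_sum {A B ι : Type} [AddCommMonoid A] [CommMonoid B] (ψ : AddChar A B)
    (s : Finset ι) (f : ι → A) : ψ (∑ i ∈ s, f i) = ∏ i ∈ s, ψ (f i) := by
  classical
  induction s using Finset.induction_on with
  | empty => rw [Finset.sum_empty, Finset.prod_empty, AddChar.map_zero_eq_one]
  | insert a s ha ih => rw [Finset.sum_insert ha, Finset.prod_insert ha, AddChar.map_add_eq_mul, ih]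

section main

variable {p : ℕ} [Fact p.Prime] {k : Type} [NormedField k] [NormedAlgebra ℚ_[p] k]
  {K M K₁ M₁ : Type} [Field K] [NumberField K] [Field M] [NumberField M] [Field K₁]
  [NumberField K₁] [Field M₁] [NumberField M₁] [Algebra K M] [Algebra K K₁] [Algebra K M₁]
  [Algebra M M₁] [Algebra K₁ M₁] {ε : K₁} {δ : M ≃ₐ[K] M} {P : (ZMod p)[X]}
  {n : ℕ}

theorem lam0_eq [Fact (Irreducible P)] {L : IwasawaLog p k} {T : Set (K →+* k)}
    (B : Base p K M K₁ M₁ ε δ P) {aτ : K₁ˣ} (E : TauN n B L T aτ) (t : Fin B.r → AdjoinRoot P)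
    (j : Fin n) : (sysN B E).lam₀ t j = ∑ i, t i * E.h j (B.u i) := by
  show (LinearMap.pi (R := AdjoinRoot P) (fun j ↦
    ∑ i, (LinearMap.proj i).smulRight (E.h j (B.u i))) t j : AdjoinRoot P) = _
  rw [LinearMap.pi_apply, LinearMap.sum_apply]
  rfl

theorem lam_eq [Fact (Irreducible P)] {L : IwasawaLog p k} {T : Set (K →+* k)}
    (B : Base p K M K₁ M₁ ε δ P) {aτ : K₁ˣ} (E : TauN n B L T aτ) (q : B.LP) (c : AdjoinRoot P)
    (j : Fin n) : (sysN B E).lam q c j = c * B.til (E.h j) (nrm M M₁ (B.z q.1.1)) := rfl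

theorem res_eq [Fact (Irreducible P)] {L : IwasawaLog p k} {T : Set (K →+* k)}
    (B : Base p K M K₁ M₁ ε δ P) {aτ : K₁ˣ} (E : TauN n B L T aτ) (q : B.LP)
    (t : Fin B.r → AdjoinRoot P) :
    (sysN B E).res q t = ∑ i, t i * B.R q.1.1 (B.u i) := by
  show ((∑ i, (LinearMap.proj i).smulRight (B.R q.1.1 (B.u i)) :
    (Fin B.r → AdjoinRoot P) →ₗ[AdjoinRoot P] AdjoinRoot P) t : AdjoinRoot P) = _
  rw [LinearMap.sum_apply]
  rfl

theorem vis_calP (hs : SitW p K M K₁ M₁ ε δ P) (B : Base p K M K₁ M₁ ε δ P)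
    {v : HeightOneSpectrum (𝓞 K)} (hv : v ∈ B.Vis) : v ∈ B.calP := by
  obtain ⟨hvS, W, hWv, hWf⟩ := hv
  have h6 := (hs.vis v (val_p_one B hvS)).1 W hWv hWf
  have hWQ : Above W (bel K₁ W) := rfl
  have h7 := h6.2.2 _ hWQ
  exact ⟨hvS, _, h7.2.2, h7.1⟩

/-- The value `f(N z_q)`. -/
noncomputable def fz (B : Base p K M K₁ M₁ ε δ P) {L : IwasawaLog p k} {T : Set (K →+* k)}
    {aτ : K₁ˣ} (E : TauN n B L T aτ) (β : Fin n → AdjoinRoot P) (D : Finset B.LP)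
    (y : B.LP → AdjoinRoot P) (v : HeightOneSpectrum (𝓞 K)) : AdjoinRoot P :=
  ∑ j, β j * B.til (E.h j) (nrm M M₁ (B.z v)) + ∑ q ∈ D, y q * B.A q.1.1 v

theorem fB_eq [Fact (Irreducible P)] (B : Base p K M K₁ M₁ ε δ P) {L : IwasawaLog p k}
    {T : Set (K →+* k)} {aτ : K₁ˣ} (E : TauN n B L T aτ)
    (tr : AdjoinRoot P →ₗ[ZMod p] ZMod p) (ψ₁ : AddChar (ZMod p) ℂ)
    (χ : AddChar (Fin n → AdjoinRoot P) ℂ) (β : Fin n → AdjoinRoot P)
    (hχ : ∀ x, χ x = ψ₁ (tr (∑ j, β j * x j))) (D : Finset B.LP) (y : B.LP → AdjoinRoot P)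
    (q : B.LP) (t : AdjoinRoot P) :
    (sysN B E).fB (psK tr ψ₁) χ D y q t = ψ₁ (tr (fz B E β D y q.1.1 * t)) := by
  have h1 : χ ((sysN B E).lam q t) =
      ψ₁ (tr ((∑ j, β j * B.til (E.h j) (nrm M M₁ (B.z q.1.1))) * t)) := by
    rw [hχ]
    congr 2
    rw [Finset.sum_mul]
    refine Finset.sum_congr rfl fun j _ => ?_
    rw [lam_eq]
    ring
  have h2 : ∏ q' ∈ D, (psK tr ψ₁) (y q' * (t * (sysN B E).a q' q)) =
      ψ₁ (tr ((∑ q' ∈ D, y q' * B.A q'.1.1 q.1.1) * t)) := by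
    rw [Finset.sum_mul, map_sum, addChar_sum]
    refine Finset.prod_congr rfl fun q' _ => ?_
    show ψ₁ (tr (y q' * (t * B.A q'.1.1 q.1.1))) = _
    congr 2
    ring
  unfold Pool.Agent.Helper17.PP.Sys.fB fz
  rw [h1, h2, ← AddChar.map_add_eq_mul, ← map_add, ← add_mul]

/-- The value `f(u_i)`. -/
noncomputable def fu (B : Base p K M K₁ M₁ ε δ P) {L : IwasawaLog p k} {T : Set (K →+* k)}
    {aτ : K₁ˣ} (E : TauN n B L T aτ) (β : Fin n → AdjoinRoot P) (D : Finset B.LP)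
    (y : B.LP → AdjoinRoot P) (u : Mˣ) : AdjoinRoot P :=
  ∑ j, β j * E.h j u + ∑ q ∈ D, y q * B.R q.1.1 u

theorem fU_eq [Fact (Irreducible P)] (B : Base p K M K₁ M₁ ε δ P) {L : IwasawaLog p k}
    {T : Set (K →+* k)} {aτ : K₁ˣ} (E : TauN n B L T aτ)
    (tr : AdjoinRoot P →ₗ[ZMod p] ZMod p) (ψ₁ : AddChar (ZMod p) ℂ)
    (χ : AddChar (Fin n → AdjoinRoot P) ℂ) (β : Fin n → AdjoinRoot P)
    (hχ : ∀ x, χ x = ψ₁ (tr (∑ j, β j * x j))) (D : Finset B.LP) (y : B.LP → AdjoinRoot P)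
    (x : Fin B.r → AdjoinRoot P) :
    (sysN B E).fU (psK tr ψ₁) χ D y x = ψ₁ (tr (∑ i, x i * fu B E β D y (B.u i))) := by
  have h1 : χ ((sysN B E).lam₀ x) = ψ₁ (tr (∑ i, x i * ∑ j, β j * E.h j (B.u i))) := by
    rw [hχ]
    congr 2
    simp only [lam0_eq, Finset.mul_sum]
    rw [Finset.sum_comm]
    refine Finset.sum_congr rfl fun i _ => Finset.sum_congr rfl fun j _ => ?_
    ring
  have h2 : ∏ q' ∈ D, (psK tr ψ₁) (y q' * (sysN B E).res q' x) =
      ψ₁ (tr (∑ i, x i * ∑ q' ∈ D, y q' * B.R q'.1.1 (B.u i))) := by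
    have h3 : ∑ i, x i * ∑ q' ∈ D, y q' * B.R q'.1.1 (B.u i) =
        ∑ q' ∈ D, y q' * (sysN B E).res q' x := by
      simp only [res_eq, Finset.mul_sum]
      rw [Finset.sum_comm]
      refine Finset.sum_congr rfl fun i _ => Finset.sum_congr rfl fun j _ => ?_
      ring
    rw [h3, map_sum, addChar_sum]
    rfl
  unfold Pool.Agent.Helper17.PP.Sys.fU fu
  rw [h1, h2, ← AddChar.map_add_eq_mul, ← map_add, ← Finset.sum_add_distrib]
  simp only [mul_add]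

end main

end Pool.Agent.Helper42.PP1
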