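import Pool.Agent.Helper42.PP1.SM

/-!
# Project PP: `W_SM`
-/

set_option autoImplicit false
set_option linter.unusedSectionVars false

namespace Pool.Agent.Helper42.PP1

open NumberField Polynomial Module IsDedekindDomain Pool.Agent.Helper51.SigLeo
open Pool.Agent.Helper51.RP Pool.Agent.Helper42.RD Pool.Agent.Helper42.PP Pool.Agent.Helper76.PP
open Pool.Agent.Helper40.RS (bel)
open Pool.Agent.Helper12.PP (kap_span kap_psi kap_eta kap_chi kap_fin)
open Pool.Agent.Helper38.RS (pz)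
open Pool.Agent.Helper51.PP (RC)
open Pool.Agent.Helper94.PP (NTP A1_PRI A1_FIX)

theorem w_sm (hPRI : A1_PRI) : W_SM := by
  classical
  intro p hpF k _ _ K M K₁ M₁ _ _ _ _ _ _ _ _ _ _ _ _ _ _ ε δ P hPi hs B L T aτ n E tr ψ₁ htr hψ
  obtain ⟨C, hC0, hC⟩ := sm_main hPRI hs B E tr htr ψ₁ hψ
  set d : ℕ := finrank K M₁ with hd
  have hfd : FiniteDimensional K M₁ := Module.Finite.of_restrictScalars_finite ℚ K M₁
  have hd1 : 1 ≤ d := finrank_pos (R := K) (M := M₁)
  refine ⟨2 * d + ⌈C⌉₊, by omega, ?_⟩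
  intro K' hK' D' y χ j hj hD' hinj hne hfU
  have hK'r : (2 * d + ⌈C⌉₊ : ℝ) ≤ K' := by exact_mod_cast hK'
  have hCC : C ≤ ⌈C⌉₊ := Nat.le_ceil C
  have hd1r : (1 : ℝ) ≤ d := by exact_mod_cast hd1
  have hK'C : C ≤ K' := by linarith
  have hK'd : 2 * (d : ℝ) ≤ K' := by linarith [(Nat.cast_nonneg ⌈C⌉₊ : (0 : ℝ) ≤ _)]
  -- the set of the primes of the support
  set D : Finset (HeightOneSpectrum (𝓞 K)) := D'.image (fun q => q.1.1) with hD
  set y₀ : HeightOneSpectrum (𝓞 K) → AdjoinRoot P := fun v =>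
    if h : ∃ q ∈ D', q.1.1 = v then y h.choose else 0 with hy₀
  have hy₀q : ∀ q ∈ D', y₀ q.1.1 = y q := by
    intro q hq
    have h : ∃ q' ∈ D', q'.1.1 = q.1.1 := ⟨q, hq, rfl⟩
    rw [hy₀]
    simp only
    rw [dif_pos h]
    congr 1
    exact hinj h.choose_spec.1 hq h.choose_spec.2
  have hDV : ∀ v ∈ D, v ∈ B.Vis ∧ y₀ v ≠ 0 := by
    intro v hv
    rw [hD, Finset.mem_image] at hv
    obtain ⟨q, hq, rfl⟩ := hv
    refine ⟨(hD' q hq).1, ?_⟩
    rw [hy₀q q hq]
    exact (hD' q hq).2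
  have hsum : ∀ F : HeightOneSpectrum (𝓞 K) → AdjoinRoot P,
      ∑ v ∈ D, y₀ v * F v = ∑ q ∈ D', y q * F q.1.1 := by
    intro F
    rw [hD, Finset.sum_image (g := fun q : B.LP => q.1.1) (fun a ha b hb h => hinj ha hb h)]
    exact Finset.sum_congr rfl fun q hq => by rw [hy₀q q hq]
  have hnm : (sysN B E).nm D' = ∏ v ∈ D, Ideal.absNorm v.asIdeal := by
    rw [hD, Finset.prod_image (g := fun q : B.LP => q.1.1) (fun a ha b hb h => hinj ha hb h)]
    rfl
  obtain ⟨β, hβ⟩ := kap_chi p P hs.irr tr htr ψ₁ hψ n χ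
  have hDβ : D.Nonempty ∨ β ≠ 0 := by
    rcases hne with h | h
    · left
      rw [hD, Finset.image_nonempty]
      exact h
    · right
      rintro rfl
      apply h
      ext x
      rw [hβ x]
      simp
  have hf : ∀ i, fSN B E β D y₀ (B.u i) = 0 := by
    intro i
    have h1 : fSN B E β D y₀ (B.u i) = fu B E β D' y (B.u i) := by
      unfold fSN fu
      rw [hsum (fun v => B.R v (B.u i))]
    rw [h1]
    apply kap_eta p P hs.irr tr htr
    intro t
    apply kap_psi p ψ₁ hψ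
    have h2 := hfU (Pi.single i t)
    rw [fU_eq B E tr ψ₁ χ β hβ D' y] at h2
    rw [← h2]
    congr 2
    rw [Finset.sum_eq_single i]
    · rw [Pi.single_eq_same, mul_comm]
    · intro i' _ hi'
      rw [Pi.single_eq_of_ne hi', zero_mul]
    · intro hi'
      exact absurd (Finset.mem_univ i) hi'
  have hmod := (mod_bound (M₁ := M₁) B).choose_spec D
  rw [hnm]
  set LL : ℝ := Real.log (Real.log (((∏ v ∈ D, Ideal.absNorm v.asIdeal : ℕ) : ℝ) + 3)) with hLL
  have hLL0 : 0 ≤ LL := hmod.1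
  rcases hj.eq_or_lt with hj1 | hj2
  · -- the case `n = 1`
    subst hj1
    rw [Nat.cast_one, Real.log_one, mul_zero]
    have h1 : (0 : ℝ) ≤ K' := Nat.cast_nonneg _
    have h2 : 0 ≤ (K' : ℝ) * LL := mul_nonneg h1 hLL0
    refine le_trans (by linarith : (0 : ℝ) - K' * LL - K' ≤ 0) ?_
    exact Finset.sum_nonneg fun q _ => by positivity
  have hj2' : 2 ≤ j := hj2
  have hAfin : {v : HeightOneSpectrum (𝓞 K) | v ∈ VS B E β D y₀ ∧
      Ideal.absNorm v.asIdeal < 2 ^ j}.Finite := by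
    have h : {v : HeightOneSpectrum (𝓞 K) | Ideal.absNorm v.asIdeal ≤ 2 ^ j}.Finite := by
      refine Set.Finite.of_finite_image (f := HeightOneSpectrum.asIdeal) ?_ ?_
      · refine (Ideal.finite_setOfPred_absNorm_le (S := 𝓞 K) (2 ^ j)).subset ?_
        rintro _ ⟨v, hv, rfl⟩
        exact hv
      · intro v _ w _ h
        exact HeightOneSpectrum.ext h
    exact h.subset fun v hv => hv.2.le
  set A : Finset (HeightOneSpectrum (𝓞 K)) := hAfin.toFinset with hA
  have hAm : ∀ v, v ∈ A ↔ v ∈ VS B E β D y₀ ∧ Ideal.absNorm v.asIdeal < 2 ^ j := by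
    intro v
    rw [hA, Set.Finite.mem_toFinset]
    rfl
  have hmain := hC β D y₀ hDV hDβ hf j A hj2' hAm
  rw [← hLL] at hmain
  have hj0 : 0 ≤ Real.log (j : ℝ) := Real.log_nonneg (by exact_mod_cast hj)
  have hL : (1 / K' : ℝ) * Real.log j ≤ Real.log j / (2 * d) := by
    rw [one_div, ← div_eq_inv_mul]
    exact div_le_div_of_nonneg_left hj0 (by linarith) hK'd
  have hL2 : C * LL ≤ K' * LL := mul_le_mul_of_nonneg_right hK'C hLL0
  refine le_trans (by linarith :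
    (1 / K' : ℝ) * Real.log j - K' * LL - K' ≤ Real.log j / (2 * d) - C * LL - C)
    (hmain.trans ?_)
  -- comparison of the sums
  have hVc : ∀ v ∈ A, v ∈ B.calP := fun v hv => vis_calP hs B ((hAm v).1 hv).1.1
  set q₀ : {v // v ∈ A} → B.LP := fun v => ⟨(v.1, 1), hVc v.1 v.2⟩ with hq₀
  have hq₀i : Function.Injective q₀ := by
    intro v v' h
    apply Subtype.ext
    have h6 := congrArg (fun q : B.LP => q.1.1) h
    exact h6
  have hAs : ∑ v ∈ A, (1 : ℝ) / Ideal.absNorm v.asIdeal =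
      ∑ q ∈ A.attach.image q₀, (1 : ℝ) / ((sysN B E).N q : ℝ) := by
    rw [← Finset.sum_attach A, Finset.sum_image (g := q₀) (fun v _ v' _ h => hq₀i h)]
    rfl
  rw [hAs]
  refine Finset.sum_le_sum_of_subset_of_nonneg ?_ (fun q _ _ => by positivity)
  intro q hq
  rw [Finset.mem_image] at hq
  obtain ⟨v, -, rfl⟩ := hq
  obtain ⟨⟨hvis, hvD, hvne⟩, hvn⟩ := (hAm v.1).1 v.2
  have hN : (sysN B E).N (q₀ v) = Ideal.absNorm v.1.asIdeal := rfl
  rw [Finset.mem_filter]
  refine ⟨?_, hvis, ?_, ?_⟩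
  · unfold Pool.Agent.Helper17.PP.Sys.below Pool.Agent.Helper17.PP.Sys.bl
    rw [Finset.mem_filter, Set.Finite.mem_toFinset]
    refine ⟨?_, ?_⟩
    · show (sysN B E).N (q₀ v) ≤ 2 ^ j
      rw [hN]
      exact hvn.le
    · rw [hN]
      refine Nat.log_lt_of_lt_pow ?_ hvn
      rw [Ne, Ideal.absNorm_eq_zero_iff]
      exact v.1.ne_bot
  · intro q' hq' h
    apply hvD
    rw [hD, Finset.mem_image]
    exact ⟨q', hq', h⟩
  · by_contra h0
    push Not at h0
    apply hvne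
    obtain ⟨-, -, h3, -⟩ := w_smf p k K M K₁ M₁ ε δ P hs B L T aτ n E tr htr β D y₀ hDV hDβ hf
    have h4 : fSN B E β D y₀ (nrm M M₁ (B.z v.1)) = fz B E β D' y v.1 := by
      rw [h3 v.1 hvis, hsum (fun w => B.A w v.1)]
      rfl
    rw [h4]
    apply kap_eta p P hs.irr tr htr
    intro t
    apply kap_psi p ψ₁ hψ
    have h5 := h0 t
    rw [fB_eq B E tr ψ₁ χ β hβ D' y] at h5
    exact h5

end Pool.Agent.Helper42.PP1
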